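import Mathlib

/-!
The free groups of the variety of abelian-by-(nilpotent of class at most c) groups,
bases and primitive elements.
-/

open scoped commutatorElement

namespace MP15511a

/-- `K` lies in the variety `A N_c`: `[γ_{c+1}(K), γ_{c+1}(K)] = 1`
(`lowerCentralSeries c` is `γ_{c+1}`). -/
def InAN (c : ℕ) (K : Type*) [Group K] : Prop :=
  ⁅(⊤ : Subgroup K).lowerCentralSeries c, (⊤ : Subgroup K).lowerCentralSeries c⁆ = ⊥

/-- `F / [γ_{c+1}(F), γ_{c+1}(F)]`, `F` the free group of rank `r`. -/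
abbrev FreeAN (c r : ℕ) : Type :=
  FreeGroup (Fin r) ⧸ ⁅(⊤ : Subgroup (FreeGroup (Fin r))).lowerCentralSeries c,
    (⊤ : Subgroup (FreeGroup (Fin r))).lowerCentralSeries c⁆

/-- the standard generators -/
def gen (c : ℕ) {r : ℕ} (i : Fin r) : FreeAN c r := QuotientGroup.mk (FreeGroup.of i)

/-- `b` freely generates `FreeAN c r` in the variety `A N_c`. -/
def IsBasis {c r : ℕ} (b : Fin r → FreeAN c r) : Prop :=
  ∀ (K : Type) [Group K], InAN c K → ∀ k : Fin r → K, ∃! f : FreeAN c r →* K, ∀ i, f (b i) = k i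

/-- primitive elements -/
def Primitive {c r : ℕ} (u : FreeAN c r) : Prop :=
  ∃ b : Fin r → FreeAN c r, IsBasis b ∧ ∃ i, b i = u

/-- `FreeAN c r` lies in the variety. -/
theorem inAN_of_surj {c : ℕ} {K L : Type*} [Group K] [Group L] (f : K →* L)
    (hf : Function.Surjective f) (hK : ⁅(⊤ : Subgroup K).lowerCentralSeries c,
      (⊤ : Subgroup K).lowerCentralSeries c⁆ ≤ f.ker) : InAN c L := by
  have h1 : (⊤ : Subgroup L).lowerCentralSeries c
      = ((⊤ : Subgroup K).lowerCentralSeries c).map f := by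
    rw [Subgroup.map_lowerCentralSeries, Subgroup.map_top_of_surjective f hf]
  rw [InAN, h1, ← Subgroup.map_commutator, Subgroup.map_eq_bot_iff]
  exact hK

theorem inAN_free (c r : ℕ) : InAN c (FreeAN c r) := by
  apply inAN_of_surj (QuotientGroup.mk' _) (QuotientGroup.mk'_surjective _)
  rw [QuotientGroup.ker_mk']

/-- the universal property -/
def liftAN {c r : ℕ} {K : Type*} [Group K] (hK : InAN c K) (k : Fin r → K) : FreeAN c r →* K :=
  QuotientGroup.lift _ (FreeGroup.lift k) (by
    intro a ha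
    have h1 : (((⊤ : Subgroup (FreeGroup (Fin r))).lowerCentralSeries c).map (FreeGroup.lift k))
        ≤ (⊤ : Subgroup K).lowerCentralSeries c := by
      rw [Subgroup.map_lowerCentralSeries]
      exact Subgroup.lowerCentralSeries_mono c le_top
    have h2 : (⁅(⊤ : Subgroup (FreeGroup (Fin r))).lowerCentralSeries c,
        (⊤ : Subgroup (FreeGroup (Fin r))).lowerCentralSeries c⁆).map (FreeGroup.lift k) ≤ ⊥ := by
      rw [Subgroup.map_commutator]
      calc _ ≤ ⁅(⊤ : Subgroup K).lowerCentralSeries c, (⊤ : Subgroup K).lowerCentralSeries c⁆ :=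
            Subgroup.commutator_mono h1 h1
        _ = ⊥ := hK
    exact (Subgroup.mem_bot.1 (h2 ⟨a, ha, rfl⟩)))

@[simp] theorem liftAN_gen {c r : ℕ} {K : Type*} [Group K] (hK : InAN c K) (k : Fin r → K)
    (i : Fin r) : liftAN hK k (gen c i) = k i := by
  simp [liftAN, gen]

theorem hom_ext {c r : ℕ} {K : Type*} [Group K] {f g : FreeAN c r →* K}
    (h : ∀ i, f (gen c i) = g (gen c i)) : f = g := by
  apply QuotientGroup.monoidHom_ext
  apply FreeGroup.ext_hom
  intro i
  exact h i

theorem closure_gen (c r : ℕ) : Subgroup.closure (Set.range (gen c (r := r))) = ⊤ := by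
  have h1 := congrArg (Subgroup.map (QuotientGroup.mk' (⁅(⊤ : Subgroup (FreeGroup
    (Fin r))).lowerCentralSeries c, (⊤ : Subgroup (FreeGroup (Fin r))).lowerCentralSeries c⁆)))
    (FreeGroup.closure_range_of (Fin r))
  rw [MonoidHom.map_closure, ← Set.range_comp, Subgroup.map_top_of_surjective _
    (QuotientGroup.mk'_surjective _)] at h1
  exact h1

/-- a primitive element is an image of a generator under an endomorphism with a right inverse -/
theorem Primitive.exists_hom {c r : ℕ} {u : FreeAN c r} (h : Primitive u) :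
    ∃ (φ ψ : FreeAN c r →* FreeAN c r) (i : Fin r), (∀ g, φ (ψ g) = g) ∧ φ (gen c i) = u := by
  obtain ⟨b, hb, i, rfl⟩ := h
  obtain ⟨ψ, hψ, -⟩ := hb (FreeAN c r) (inAN_free c r) (fun i => gen c i)
  refine ⟨liftAN (inAN_free c r) b, ψ, i, ?_, liftAN_gen _ _ _⟩
  obtain ⟨_, -, huniq⟩ := hb (FreeAN c r) (inAN_free c r) b
  have h1 := huniq ((liftAN (inAN_free c r) b).comp ψ) (by
    intro i
    change liftAN (inAN_free c r) b (ψ (b i)) = b i
    rw [hψ, liftAN_gen])
  have h2 := huniq (MonoidHom.id _) (fun i => rfl)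
  intro g
  exact DFunLike.congr_fun (h1.trans h2.symm) g

end MP15511a
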