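import Pool.Agent.Lib.MP_15511a_al.Step

/-!
The word is primitive in every finite group with abelian third term of the lower central series.
-/

open scoped commutatorElement

universe u

namespace MP15511a

theorem step_sub {Q : Type u} [Group Q] [Finite Q] (N : Subgroup Q) (hN : N.Normal)
    (hcomm : ∀ a ∈ N, ∀ b ∈ N, a * b = b * a)
    (hmin : ∀ H : Subgroup Q, H.Normal → H ≤ N → H = ⊥ ∨ H = N)
    (x y : Q) (hgen : Subgroup.closure {x, y} = ⊤) (m n : ℤ)
    (hy : ∀ u ∈ N, ⁅y, ⁅x, y⁆⁆ * u = u * ⁅y, ⁅x, y⁆⁆)
    (hx : ∀ u ∈ N, ⁅x, ⁅x, y⁆⁆ * u = u * ⁅x, ⁅x, y⁆⁆)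
    (v0 : Q) (h0 : Subgroup.closure {word m n x y, v0} ⊔ N = ⊤) :
    ∃ v : Q, Subgroup.closure {word m n x y, v} = ⊤ := by
  let i1 : AddCommGroup (Additive N) :=
    { (inferInstance : AddGroup (Additive N)) with
      add_comm := by
        intro a b
        apply Additive.toMul.injective
        apply Subtype.ext
        exact hcomm _ (Additive.toMul a).2 _ (Additive.toMul b).2 }
  let i2 : DistribMulAction Q (Additive N) :=
    { smul := fun g a => Additive.ofMul ⟨g * (Additive.toMul a).1 * g⁻¹,
        hN.conj_mem _ (Additive.toMul a).2 g⟩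
      one_smul := by
        intro a
        apply Additive.toMul.injective
        apply Subtype.ext
        change 1 * (Additive.toMul a).1 * 1⁻¹ = _
        simp
      mul_smul := by
        intro g h a
        apply Additive.toMul.injective
        apply Subtype.ext
        change (g * h) * (Additive.toMul a).1 * (g * h)⁻¹
          = g * (h * (Additive.toMul a).1 * h⁻¹) * g⁻¹
        group
      smul_zero := by
        intro g
        apply Additive.toMul.injective
        apply Subtype.ext
        change g * 1 * g⁻¹ = 1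
        simp
      smul_add := by
        intro g a b
        apply Additive.toMul.injective
        apply Subtype.ext
        change g * ((Additive.toMul a).1 * (Additive.toMul b).1) * g⁻¹
          = (g * (Additive.toMul a).1 * g⁻¹) * (g * (Additive.toMul b).1 * g⁻¹)
        group }
  let ι : Multiplicative (Additive N) →* Q :=
    { toFun := fun u => (Additive.toMul (Multiplicative.toAdd u)).1
      map_one' := rfl
      map_mul' := fun _ _ => rfl }
  have hr : ι.range = N := by
    ext g
    constructor
    · rintro ⟨u, rfl⟩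
      exact (Additive.toMul (Multiplicative.toAdd u)).2
    · intro hg
      exact ⟨Multiplicative.ofAdd (Additive.ofMul ⟨g, hg⟩), rfl⟩
  have triv : ∀ g : Q, (∀ u ∈ N, g * u = u * g) → ∀ u : Additive N, i2.toSMul.smul g u = u := by
    intro g hg u
    apply Additive.toMul.injective
    apply Subtype.ext
    change g * (Additive.toMul u).1 * g⁻¹ = (Additive.toMul u).1
    rw [hg _ (Additive.toMul u).2, mul_inv_cancel_right]
  refine @step (Additive N) Q i1 _ i2 _ ι ?_ ?_ ?_ x y hgen m n (triv _ hy) (triv _ hx) v0 ?_
  · intro a b hab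
    apply Multiplicative.toAdd.injective
    apply Additive.toMul.injective
    exact Subtype.ext hab
  · intro g u
    rfl
  · intro H h1 h2
    rw [hr] at h2 ⊢
    exact hmin H h1 h2
  · rw [hr]; exact h0

theorem fin_prim (m n : ℤ) : ∀ (k : ℕ) (Q : Type u) [Group Q] [Finite Q], Nat.card Q ≤ k →
    ⁅(⊤ : Subgroup Q).lowerCentralSeries 2, (⊤ : Subgroup Q).lowerCentralSeries 2⁆ = ⊥ →
    ∀ x y : Q, Subgroup.closure {x, y} = ⊤ →
      ∃ v : Q, Subgroup.closure {word m n x y, v} = ⊤ := by
  intro k
  induction k with
  | zero =>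
    intro Q _ _ hk
    have := Nat.card_pos (α := Q)
    omega
  | succ k ih =>
    intro Q _ _ hk hab x y hgen
    classical
    set A := (⊤ : Subgroup Q).lowerCentralSeries 2 with hA
    have hcomA : ∀ a ∈ A, ∀ b ∈ A, a * b = b * a := by
      intro a ha b hb
      have h1 : ⁅a, b⁆ ∈ ⁅A, A⁆ := Subgroup.commutator_mem_commutator ha hb
      rw [hab, Subgroup.mem_bot] at h1
      exact commutatorElement_eq_one_iff_mul_comm.1 h1
    have hz1 : ⁅x, y⁆ ∈ (⊤ : Subgroup Q).lowerCentralSeries 1 :=
      Subgroup.commutator_mem_commutator (Subgroup.mem_top x) (Subgroup.mem_top y)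
    have hg2 : ∀ g : Q, ⁅g, ⁅x, y⁆⁆ ∈ A := by
      intro g
      have h1 : ⁅⁅x, y⁆, g⁆ ∈ A := Subgroup.commutator_mem_commutator hz1 (Subgroup.mem_top g)
      have h2 := A.inv_mem h1
      rwa [commutatorElement_inv] at h2
    by_cases hAb : A = ⊥
    · refine ⟨y, ?_⟩
      have h1 : ⁅y, ⁅x, y⁆⁆ = 1 := by
        have := hg2 y
        rwa [hAb, Subgroup.mem_bot] at this
      have h2 : word m n x y = x := by
        rw [word, h1, one_zpow, commutatorElement_one_left, one_mul]
      rw [h2, hgen]
    · have hAn : A.Normal := by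
        rw [hA]; infer_instance
      have hex : ∃ c : ℕ, ∃ H : Subgroup Q, H.Normal ∧ H ≠ ⊥ ∧ H ≤ A ∧ Nat.card H = c :=
        ⟨_, A, hAn, hAb, le_refl _, rfl⟩
      obtain ⟨N, hN, hNb, hNA, hNc⟩ := Nat.find_spec hex
      have hmin : ∀ H : Subgroup Q, H.Normal → H ≤ N → H = ⊥ ∨ H = N := by
        intro H hH hHN
        by_cases hb : H = ⊥
        · exact Or.inl hb
        · right
          have h1 := Nat.find_min' hex ⟨H, hH, hb, hHN.trans hNA, rfl⟩
          rw [← hNc] at h1
          exact Subgroup.eq_of_le_of_card_ge hHN h1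
      have hcard : Nat.card (Q ⧸ N) ≤ k := by
        have h1 := Subgroup.card_eq_card_quotient_mul_card_subgroup N
        have h2 : 1 < Nat.card N := by
          by_contra hc
          have h3 : Nat.card N = 1 := by
            have := Nat.card_pos (α := N)
            omega
          exact hNb (Subgroup.card_eq_one.1 h3)
        have h3 := Nat.card_pos (α := Q ⧸ N)
        have h4 : Nat.card (Q ⧸ N) < Nat.card Q := by
          rw [h1]
          exact lt_mul_of_one_lt_right h3 h2
        omega
      set π := QuotientGroup.mk' N with hπ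
      have hsurj : Function.Surjective π := QuotientGroup.mk'_surjective N
      have hab' : ⁅(⊤ : Subgroup (Q ⧸ N)).lowerCentralSeries 2,
          (⊤ : Subgroup (Q ⧸ N)).lowerCentralSeries 2⁆ = ⊥ := by
        have h1 : (⊤ : Subgroup (Q ⧸ N)).lowerCentralSeries 2 = A.map π := by
          rw [hA, Subgroup.map_lowerCentralSeries, Subgroup.map_top_of_surjective π hsurj]
        rw [h1, ← Subgroup.map_commutator, hab, Subgroup.map_bot]
      have hgen' : Subgroup.closure {π x, π y} = ⊤ := by
        have h1 := congrArg (Subgroup.map π) hgen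
        rw [MonoidHom.map_closure, Subgroup.map_top_of_surjective π hsurj, Set.image_pair] at h1
        exact h1
      obtain ⟨v', hv'⟩ := ih (Q ⧸ N) hcard hab' (π x) (π y) hgen'
      obtain ⟨v0, rfl⟩ := hsurj v'
      rw [← map_word] at hv'
      have h0 : Subgroup.closure {word m n x y, v0} ⊔ N = ⊤ := by
        have h1 : (Subgroup.closure {word m n x y, v0}).map π = ⊤ := by
          rw [MonoidHom.map_closure, Set.image_pair]; exact hv'
        have h2 := Subgroup.comap_map_eq π (Subgroup.closure {word m n x y, v0})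
        rw [h1, Subgroup.comap_top, hπ, QuotientGroup.ker_mk'] at h2
        exact h2.symm
      exact step_sub N hN (fun a ha b hb => hcomA a (hNA ha) b (hNA hb)) hmin x y hgen m n
        (fun u hu => hcomA _ (hg2 y) _ (hNA hu)) (fun u hu => hcomA _ (hg2 x) _ (hNA hu)) v0 h0

end MP15511a
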