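import Pool.Agent.Lib.MP_15511a_al.Surj

/-!
The row of Fox derivatives of the word, over the integral group ring of `F / γ_3(F)`, is unimodular.
-/

open scoped commutatorElement

namespace MP15511a

/-- `F / γ_3(F)`, F free of rank 2 -/
abbrev NN2 : Type := FreeGroup (Fin 2) ⧸ (⊤ : Subgroup (FreeGroup (Fin 2))).lowerCentralSeries 2

/-- the integral group ring of `F / γ_3(F)` -/
abbrev ZN : Type := MonoidAlgebra ℤ NN2

/-- the embedding in the units -/
noncomputable def hu : NN2 →* ZNˣ := (MonoidAlgebra.of ℤ NN2).toHomUnits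

theorem hu_val (g : NN2) : (hu g : ZN) = MonoidAlgebra.of ℤ NN2 g := rfl

/-- the Fox derivatives, as a homomorphism -/
noncomputable def foxhom : FreeGroup (Fin 2) →* SD (ZN × ZN) ZNˣ :=
  FreeGroup.lift ![⟨(1, 0), hu (QuotientGroup.mk (FreeGroup.of 0))⟩,
    ⟨(0, 1), hu (QuotientGroup.mk (FreeGroup.of 1))⟩]

theorem foxhom_0 : foxhom (FreeGroup.of 0)
    = ⟨(1, 0), hu (QuotientGroup.mk (FreeGroup.of 0))⟩ := by simp [foxhom]
theorem foxhom_1 : foxhom (FreeGroup.of 1)
    = ⟨(0, 1), hu (QuotientGroup.mk (FreeGroup.of 1))⟩ := by simp [foxhom]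

theorem foxhom_g (g : FreeGroup (Fin 2)) : (foxhom g).g = hu (QuotientGroup.mk g) := by
  have h : (SD.pr : SD (ZN × ZN) ZNˣ →* ZNˣ).comp foxhom
      = hu.comp (QuotientGroup.mk' _) := by
    apply FreeGroup.ext_hom
    intro i
    fin_cases i
    · exact congrArg SD.g foxhom_0
    · exact congrArg SD.g foxhom_1
  exact DFunLike.congr_fun h g

/-- evaluation of a row on a column -/
noncomputable def kmap {E : Type*} [Ring E] (a b : E) : SD (E × E) Eˣ →* SD E Eˣ where
  toFun s := ⟨s.v.1 * a + s.v.2 * b, s.g⟩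
  map_one' := by
    apply SD.ext <;> simp
  map_mul' := by
    intro s t
    apply SD.ext
    · simp only [SD.mul_v, Prod.fst_add, Prod.snd_add, Prod.smul_fst, Prod.smul_snd, Units.smul_def,
        smul_eq_mul]
      noncomm_ring
    · rfl

theorem fox_unimod (m n : ℤ) : ∃ D : Fin 2 → FreeGroup (Fin 2) → ZN,
    (∀ i j, D i (FreeGroup.of j) = if i = j then 1 else 0) ∧
    (∀ i g h, D i (g * h) = D i g + MonoidAlgebra.of ℤ NN2 (QuotientGroup.mk g) * D i h) ∧
    ∃ a b : ZN, D 0 (word m n (FreeGroup.of 0) (FreeGroup.of 1)) * a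
      + D 1 (word m n (FreeGroup.of 0) (FreeGroup.of 1)) * b = 1 := by
  refine ⟨![fun g => (foxhom g).v.1, fun g => (foxhom g).v.2], ?_, ?_, ?_⟩
  · intro i j
    fin_cases i <;> fin_cases j
    · exact congrArg (fun s => s.v.1) foxhom_0
    · exact congrArg (fun s => s.v.1) foxhom_1
    · exact congrArg (fun s => s.v.2) foxhom_0
    · exact congrArg (fun s => s.v.2) foxhom_1
  · intro i g h
    rw [← hu_val, ← foxhom_g]
    have e := congrArg SD.v (map_mul foxhom g h)
    rw [SD.mul_v] at e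
    fin_cases i
    · exact congrArg Prod.fst e
    · exact congrArg Prod.snd e
  · set X : ZNˣ := hu (QuotientGroup.mk (FreeGroup.of 0)) with hX
    set Y : ZNˣ := hu (QuotientGroup.mk (FreeGroup.of 1)) with hY
    have hk : ∀ g : FreeGroup (Fin 2), hu (QuotientGroup.mk ⁅g,
        ⁅(FreeGroup.of 0 : FreeGroup (Fin 2)), (FreeGroup.of 1 : FreeGroup (Fin 2))⁆⁆) = 1 := by
      intro g
      have h1 : ⁅⁅(FreeGroup.of 0 : FreeGroup (Fin 2)), (FreeGroup.of 1 : FreeGroup (Fin 2))⁆, g⁆
          ∈ (⊤ : Subgroup (FreeGroup (Fin 2))).lowerCentralSeries 2 :=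
        Subgroup.commutator_mem_commutator
          (Subgroup.commutator_mem_commutator (Subgroup.mem_top _) (Subgroup.mem_top _))
          (Subgroup.mem_top g)
      have h2 := Subgroup.inv_mem _ h1
      rw [commutatorElement_inv] at h2
      rw [(QuotientGroup.eq_one_iff _).2 h2, map_one]
    have hcom : ∀ g h : FreeGroup (Fin 2), hu (QuotientGroup.mk ⁅g, h⁆)
        = ⁅hu (QuotientGroup.mk g), hu (QuotientGroup.mk h)⁆ := by
      intro g h
      exact map_commutatorElement (hu.comp (QuotientGroup.mk' _)) g h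
    have hy : ⁅Y, ⁅X, Y⁆⁆ = 1 := by
      rw [hX, hY, ← hcom, ← hcom, hk]
    have hx : ⁅X, ⁅X, Y⁆⁆ = 1 := by
      rw [hX, hY, ← hcom, ← hcom, hk]
    obtain ⟨a, b, hab⟩ := word_surj (V := ZN) X Y m n (by intro u; rw [hy, one_smul])
      (by intro u; rw [hx, one_smul]) 1
    refine ⟨a, b, ?_⟩
    have e : kmap a b (foxhom (word m n (FreeGroup.of 0) (FreeGroup.of 1)))
        = word m n (⟨a, X⟩ : SD ZN ZNˣ) ⟨b, Y⟩ := by
      rw [map_word, map_word, foxhom_0, foxhom_1]
      congr 1
      · apply SD.ext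
        · simp [kmap]
        · rfl
      · apply SD.ext
        · simp [kmap]
        · rfl
    exact (congrArg SD.v e).trans hab

end MP15511a
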