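import Pool.Agent.Lib.MP_15511a_al.NonInv

/-!
The quantum torus at z = 2: Laurent polynomials over the rationals with y x = (x / 2) y.
-/

namespace MP15511a

open SkewMonoidAlgebra LaurentPolynomial

/-- the commutative ring of Laurent polynomials -/
abbrev BB : Type := LaurentPolynomial ℚ

/-- the unit x / 2 -/
noncomputable def uh : BBˣ :=
  ⟨C (1 / 2) * T 1, C 2 * T (-1), by
    rw [mul_mul_mul_comm, ← map_mul, ← T_add]; norm_num,
   by rw [mul_mul_mul_comm, ← map_mul, ← T_add]; norm_num⟩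

/-- the unit 2 x -/
noncomputable def ud : BBˣ :=
  ⟨C 2 * T 1, C (1 / 2) * T (-1), by
    rw [mul_mul_mul_comm, ← map_mul, ← T_add]; norm_num,
   by rw [mul_mul_mul_comm, ← map_mul, ← T_add]; norm_num⟩

/-- x to x / 2 -/
noncomputable def sg : BB →+* BB := eval₂ (C : ℚ →+* BB) uh

/-- x to 2 x -/
noncomputable def sgi : BB →+* BB := eval₂ (C : ℚ →+* BB) ud

theorem sg_C (r : ℚ) : sg (C r) = C r := eval₂_C _ _ _
theorem sgi_C (r : ℚ) : sgi (C r) = C r := eval₂_C _ _ _
theorem sg_T : sg (T 1) = C (1 / 2) * T 1 := by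
  have h := eval₂_T (C : ℚ →+* BB) uh 1
  rw [zpow_one] at h
  exact h
theorem sgi_T : sgi (T 1) = C 2 * T 1 := by
  have h := eval₂_T (C : ℚ →+* BB) ud 1
  rw [zpow_one] at h
  exact h

theorem bb_ext {S : Type*} [CommRing S] (f g : BB →+* S) (hC : ∀ r : ℚ, f (C r) = g (C r))
    (hT : f (T 1) = g (T 1)) : f = g := by
  apply IsLocalization.ringHom_ext (Submonoid.powers (Polynomial.X : Polynomial ℚ))
  apply Polynomial.ringHom_ext
  · intro r
    simpa [algebraMap_eq_toLaurent] using hC r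
  · simpa [algebraMap_eq_toLaurent] using hT

/-- the automorphism x to x / 2 -/
noncomputable def sgE : RingAut BB :=
  RingEquiv.ofRingHom sg sgi
    (bb_ext _ _ (fun r => by simp [sg_C, sgi_C]) (by
      rw [RingHom.comp_apply, sgi_T, map_mul, sg_C, sg_T, ← mul_assoc, ← map_mul]
      norm_num))
    (bb_ext _ _ (fun r => by simp [sg_C, sgi_C]) (by
      rw [RingHom.comp_apply, sg_T, map_mul, sgi_C, sgi_T, ← mul_assoc, ← map_mul]
      norm_num))

/-- the action of the infinite cyclic group -/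
noncomputable instance actBB : MulSemiringAction (Multiplicative ℤ) BB :=
  MulSemiringAction.compHom BB (zpowersHom (RingAut BB) sgE)

theorem sh_smul (b : BB) : sh • b = sg b := by
  change (zpowersHom (RingAut BB) sgE (Multiplicative.ofAdd 1)) b = sg b
  rw [zpowersHom_apply, toAdd_ofAdd, zpow_one]
  rfl

theorem sh_T : sh • (T 1 : BB) = C (1 / 2) * T 1 := by rw [sh_smul, sg_T]
theorem sh_C (r : ℚ) : sh • (C r : BB) = C r := by rw [sh_smul, sg_C]

/-- evaluation at x = 1 -/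
noncomputable def ev1 : BB →+* ℚ := eval₂ (RingHom.id ℚ) 1
/-- evaluation at x = 2 -/
noncomputable def ev2 : BB →+* ℚ := eval₂ (RingHom.id ℚ) (Units.mk0 2 two_ne_zero)

theorem ev1_C (r : ℚ) : ev1 (C r) = r := eval₂_C _ _ _
theorem ev2_C (r : ℚ) : ev2 (C r) = r := eval₂_C _ _ _
theorem ev1_T : ev1 (T 1) = 1 := by
  have h := eval₂_T (RingHom.id ℚ) 1 1
  rw [zpow_one] at h
  exact h
theorem ev2_T : ev2 (T 1) = 2 := by
  have h := eval₂_T (RingHom.id ℚ) (Units.mk0 2 two_ne_zero) 1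
  rw [zpow_one] at h
  exact h

/-- The non-invertibility in the quantum torus. -/
theorem noninv_inst (al : ℚ) (hal : al ≠ 0) (q t p' q' r' s' : SL BB)
    (E1 : p' * q + q' * t = 0) (E2 : r' * q + s' * t = 1)
    (E3 : p' * (cst (T 1) - 1) + q' * (single sh 1 - 1) = cst (T 1) - 1)
    (E4 : r' * (cst (T 1) - 1) + s' * (single sh 1 - 1) = single sh 1 - 1)
    (hq : q = - (cst (C al) * (single 1 (1 - T 1) + single sh (C (1 / 2) * T 1 - C 2)))) :
    False := by
  have h1 : (T 1 : BB) - 1 ≠ 0 := by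
    intro h
    have := congrArg ev2 h
    rw [map_sub, ev2_T, map_one, map_zero] at this
    norm_num at this
  have h2 : (T 1 : BB) - C 2 ≠ 0 := by
    intro h
    have := congrArg ev1 h
    rw [map_sub, ev1_T, ev1_C, map_zero] at this
    norm_num at this
  refine noninv (T 1) (C 2) (C (1 / 2)) (C al) ?_ sh_T (sh_C 2) (sh_C al) h1 h2 ev1 ev2
    ev1_T ?_ ?_ ?_ ?_ ?_ ?_ ?_ q t p' q' r' s' E1 E2 E3 E4 hq
  · rw [← map_mul]; norm_num
  · rw [ev2_T, ev2_C]
  · rwa [ev1_C]
  · rwa [ev2_C]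
  · rw [ev1_C]; norm_num
  · rw [ev2_C]; norm_num
  · rw [ev1_C]; norm_num
  · rw [ev2_C]; norm_num

end MP15511a
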