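import Mathlib

/-!
Semidirect products `V ⋊ K` and the derivative of the word
`w = [[y, z]^m, z^(2n)] x`, `z = [x, y]`.
-/

open scoped commutatorElement

namespace MP15511a

/-- The word `[[y, z]^m, z^(2n)] x` with `z = [x, y]`. -/
def word {K : Type*} [Group K] (m n : ℤ) (x y : K) : K :=
  ⁅⁅y, ⁅x, y⁆⁆ ^ m, ⁅x, y⁆ ^ (2 * n)⁆ * x

theorem map_word {K L : Type*} [Group K] [Group L] (f : K →* L) (m n : ℤ) (x y : K) :
    f (word m n x y) = word m n (f x) (f y) := by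
  simp only [word, map_mul, map_commutatorElement, map_zpow]

/-- The semidirect product. -/
@[ext]
structure SD (V K : Type*) where
  v : V
  g : K

namespace SD

variable {V K : Type*} [AddCommGroup V] [Group K] [DistribMulAction K V]

instance : Mul (SD V K) := ⟨fun a b => ⟨a.v + a.g • b.v, a.g * b.g⟩⟩
instance : One (SD V K) := ⟨⟨0, 1⟩⟩
instance : Inv (SD V K) := ⟨fun a => ⟨-(a.g⁻¹ • a.v), a.g⁻¹⟩⟩

@[simp] theorem mul_v (a b : SD V K) : (a * b).v = a.v + a.g • b.v := rfl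
@[simp] theorem mul_g (a b : SD V K) : (a * b).g = a.g * b.g := rfl
@[simp] theorem one_v : (1 : SD V K).v = 0 := rfl
@[simp] theorem one_g : (1 : SD V K).g = 1 := rfl
@[simp] theorem inv_v (a : SD V K) : (a⁻¹).v = -(a.g⁻¹ • a.v) := rfl
@[simp] theorem inv_g (a : SD V K) : (a⁻¹).g = a.g⁻¹ := rfl

instance : Group (SD V K) :=
  Group.ofLeftAxioms
    (by intro a b c; ext <;> simp [smul_add, mul_smul, add_assoc, mul_assoc])
    (by intro a; ext <;> simp)
    (by intro a; ext <;> simp)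

/-- the projection -/
def pr : SD V K →* K where
  toFun a := a.g
  map_one' := rfl
  map_mul' _ _ := rfl

@[simp] theorem pr_apply (a : SD V K) : pr a = a.g := rfl

theorem comm_g (a b : SD V K) : (⁅a, b⁆).g = ⁅a.g, b.g⁆ := by
  simp [commutatorElement_def]

theorem comm_v (a b : SD V K) :
    (⁅a, b⁆).v = a.v + a.g • b.v - (a.g * b.g * a.g⁻¹) • a.v - ⁅a.g, b.g⁆ • b.v := by
  simp only [commutatorElement_def, mul_v, mul_g, inv_v, smul_neg, mul_smul]
  abel

theorem zpow_g (a : SD V K) (m : ℤ) : (a ^ m).g = a.g ^ m := by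
  have := map_zpow (pr : SD V K →* K) a m
  simpa using this

theorem zpow_v_of_triv (a : SD V K) (h : ∀ u : V, a.g • u = u) (m : ℤ) :
    (a ^ m).v = m • a.v := by
  have hi : ∀ u : V, a.g⁻¹ • u = u := by
    intro u
    rw [inv_smul_eq_iff, h]
  have hn : ∀ k : ℕ, (a ^ k).v = k • a.v ∧ ∀ u : V, (a ^ k).g • u = u := by
    intro k
    induction k with
    | zero => simp
    | succ k ih =>
      refine ⟨?_, ?_⟩
      · rw [pow_succ, mul_v, ih.1, ih.2, succ_nsmul]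
      · intro u
        rw [pow_succ, mul_g, mul_smul, h, ih.2]
  cases m with
  | ofNat k =>
    have := (hn k).1
    simpa using this
  | negSucc k =>
    have := (hn (k + 1))
    rw [zpow_negSucc, inv_v, this.1]
    have h2 : ((a ^ (k + 1)).g)⁻¹ • ((k + 1) • a.v) = (k + 1) • a.v := by
      rw [inv_smul_eq_iff, this.2]
    rw [h2, negSucc_zsmul]

/-- Derivative of the word. -/
theorem word_v (x y : K) (a b : V) (m n : ℤ)
    (hc : ∀ u : V, ⁅y, ⁅x, y⁆⁆ • u = u) :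
    (word m n (⟨a, x⟩ : SD V K) ⟨b, y⟩).v
      = a + m • ((b - ⁅x, y⁆ • b
            + (y • (a - (⁅x, y⁆ * y) • a + (x • b - ⁅x, y⁆ • b))
              - (a - (⁅x, y⁆ * y) • a + (x • b - ⁅x, y⁆ • b))))
          - (⁅x, y⁆ ^ (2 * n)) • (b - ⁅x, y⁆ • b
            + (y • (a - (⁅x, y⁆ * y) • a + (x • b - ⁅x, y⁆ • b))
              - (a - (⁅x, y⁆ * y) • a + (x • b - ⁅x, y⁆ • b))))) := by
  set z := ⁅x, y⁆ with hz
  set Z : SD V K := ⁅(⟨a, x⟩ : SD V K), ⟨b, y⟩⁆ with hZ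
  set ζ := a - (z * y) • a + (x • b - z • b) with hζ
  have hxyx : x * y * x⁻¹ = z * y := by rw [hz, commutatorElement_def]; group
  have Zg : Z.g = z := by rw [hZ, comm_g]
  have Zv : Z.v = ζ := by
    rw [hZ, comm_v, hζ, hz, ← hxyx]
    simp only
    abel
  set C : SD V K := ⁅(⟨b, y⟩ : SD V K), Z⁆ with hC
  have Cg : C.g = ⁅y, z⁆ := by rw [hC, comm_g, Zg]
  have Cv : C.v = b - z • b + (y • ζ - ζ) := by
    rw [hC, comm_v, Zg, Zv]
    simp only
    have h1 : (y * z * y⁻¹) • b = z • b := by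
      have : y * z * y⁻¹ = ⁅y, z⁆ * z := by rw [commutatorElement_def]; group
      rw [this, mul_smul, hc]
    rw [h1, hc]; abel
  set ρ := b - z • b + (y • ζ - ζ) with hρ
  have Cmv : (C ^ m).v = m • ρ := by
    rw [zpow_v_of_triv C (by rw [Cg]; exact hc), Cv]
  have Cmg : ∀ u : V, (C ^ m).g • u = u := by
    intro u
    rw [zpow_g, Cg]
    have : ⁅y, z⁆ ^ m ∈ MulAction.stabilizer K u :=
      Subgroup.zpow_mem _ (by rw [MulAction.mem_stabilizer_iff]; exact hc u) m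
    exact this
  have Cmi : ∀ u : V, (C ^ m).g⁻¹ • u = u := by
    intro u
    rw [inv_smul_eq_iff, Cmg]
  set D : SD V K := ⁅C ^ m, Z ^ (2 * n)⁆ with hD
  have Dg : ∀ u : V, D.g • u = u := by
    intro u
    rw [hD, comm_g, commutatorElement_def, mul_smul, mul_smul, mul_smul, Cmg, Cmi, smul_inv_smul]
  have Dv : D.v = m • ρ - (z ^ (2 * n)) • (m • ρ) := by
    rw [hD, comm_v, Cmv, Cmg, zpow_g Z, Zg]
    have h1 : ⁅(C ^ m).g, z ^ (2 * n)⁆ • (Z ^ (2 * n)).v = (Z ^ (2 * n)).v := by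
      have := Dg (Z ^ (2 * n)).v
      rw [hD, comm_g, zpow_g Z, Zg] at this
      exact this
    rw [h1, mul_smul, mul_smul, Cmi, Cmg]
    abel
  have hw : word m n (⟨a, x⟩ : SD V K) ⟨b, y⟩ = D * ⟨a, x⟩ := rfl
  rw [hw, mul_v, Dg, Dv]
  simp only
  rw [smul_comm (z ^ (2 * n)) m ρ, ← smul_sub]
  abel

theorem word_g (x y : K) (a b : V) (m n : ℤ) :
    (word m n (⟨a, x⟩ : SD V K) ⟨b, y⟩).g = word m n x y :=
  map_word (pr : SD V K →* K) m n ⟨a, x⟩ ⟨b, y⟩

end SD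

end MP15511a
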