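import Pool.Agent.Lib.MP_15511a_al.Inst
import Pool.Agent.Lib.MP_15511a_al.SD
import Pool.Agent.Lib.MP_15511a_al.Defs

/-!
The Magnus type representation of `F_2(A N_2)` over the quantum torus at z = 2.
-/

open scoped commutatorElement

namespace MP15511a

open SkewMonoidAlgebra LaurentPolynomial

/-- the quantum torus -/
abbrev RR : Type := SL BB

theorem smul_C (j : Multiplicative ℤ) (r : ℚ) : j • (C r : BB) = C r := by
  have h1 : sh ∈ MulAction.stabilizer (Multiplicative ℤ) (C r : BB) := sh_C r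
  have h2 := Subgroup.zpow_mem _ h1 (Multiplicative.toAdd j)
  have h3 : sh ^ (Multiplicative.toAdd j) = j := by
    apply Multiplicative.toAdd.injective
    rw [toAdd_zpow, toAdd_ofAdd]; simp
  rw [h3] at h2
  exact h2

theorem cst_C_comm (r : ℚ) (a : RR) : cst (C r) * a = a * cst (C r) := by
  ext j
  rw [coeff_single_one_mul, coeff_mul_single_one, smul_C, mul_comm]

theorem cst_one : cst (1 : BB) = (1 : RR) := rfl

/-- the unit x -/
noncomputable def Xu : RRˣ :=
  ⟨cst (T 1), cst (T (-1)), by rw [← cst_mul, ← T_add]; rfl, by rw [← cst_mul, ← T_add]; rfl⟩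

/-- the unit y -/
noncomputable def Yu : RRˣ :=
  ⟨single sh 1, single sh⁻¹ 1, by
    rw [single_mul_single, smul_one, mul_one, mul_inv_cancel]; rfl, by
    rw [single_mul_single, smul_one, mul_one, inv_mul_cancel]; rfl⟩

/-- the central unit z = 2 -/
noncomputable def Zu : RRˣ :=
  ⟨cst (C 2), cst (C (1 / 2)), by
    rw [← cst_mul, ← map_mul]; norm_num, by
    rw [← cst_mul, ← map_mul]; norm_num⟩

theorem Zu_comm (u : RRˣ) : Zu * u = u * Zu := Units.ext (cst_C_comm 2 u)

theorem XY_rel : Xu * Yu = Zu * Yu * Xu := by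
  apply Units.ext
  change (single 1 (T 1) : RR) * single sh 1 = single 1 (C 2) * single sh 1 * single 1 (T 1)
  simp only [single_mul_single, one_smul, one_mul, mul_one, smul_one]
  rw [sh_T, ← mul_assoc, ← map_mul]
  norm_num

theorem XY_comm : ⁅Xu, Yu⁆ = Zu := by
  rw [commutatorElement_def, XY_rel]; group

theorem comm_Zu (u : RRˣ) : ⁅u, Zu⁆ = 1 := by
  rw [commutatorElement_eq_one_iff_mul_comm, Zu_comm]

theorem conj_pow (a : ℤ) : Xu ^ a * Yu = Zu ^ a * Yu * Xu ^ a := by
  have h1 : Yu * Xu * Yu⁻¹ = Zu⁻¹ * Xu := by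
    have : Xu * Yu = Zu * (Yu * Xu) := by rw [XY_rel, mul_assoc]
    have h2 : Yu * Xu = Zu⁻¹ * (Xu * Yu) := by rw [this, inv_mul_cancel_left]
    rw [h2]; group
  have h3 : Yu * Xu ^ a * Yu⁻¹ = Zu ^ (-a) * Xu ^ a := by
    rw [← conj_zpow, h1]
    have hc : Commute Zu⁻¹ Xu := (Commute.inv_left (Zu_comm Xu))
    rw [hc.mul_zpow, inv_zpow, zpow_neg]
  have h4 : Yu * Xu ^ a = Zu ^ (-a) * Xu ^ a * Yu := by rw [← h3]; group
  have hZ : ∀ u : RRˣ, Zu ^ a * u = u * Zu ^ a := fun u => (Commute.zpow_left (Zu_comm u) a)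
  calc Xu ^ a * Yu = Zu ^ a * (Zu ^ (-a) * Xu ^ a * Yu) := by rw [zpow_neg]; group
    _ = Zu ^ a * Yu * Xu ^ a := by rw [← h4, mul_assoc]

/-- F -/
abbrev FF : Type := FreeGroup (Fin 2)

/-- G -/
abbrev GG : Type := FreeAN 2 2

/-- the map to the units -/
noncomputable def eta0 : FF →* RRˣ := FreeGroup.lift ![Xu, Yu]

/-- exponent of x -/
def ex0 : FF →* Multiplicative ℤ := FreeGroup.lift ![Multiplicative.ofAdd 1, 1]
/-- exponent of y -/
def ex1 : FF →* Multiplicative ℤ := FreeGroup.lift ![1, Multiplicative.ofAdd 1]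

instance zn : (Subgroup.zpowers Zu).Normal := by
  constructor
  intro n hn g
  obtain ⟨k, rfl⟩ := Subgroup.mem_zpowers_iff.1 hn
  have h : Zu ^ k * g = g * Zu ^ k := Commute.zpow_left (Zu_comm g) k
  rw [← h, mul_inv_cancel_right]
  exact Subgroup.mem_zpowers_iff.2 ⟨k, rfl⟩

/-- the quotient by the powers of Zu -/
noncomputable def qz : RRˣ →* RRˣ ⧸ Subgroup.zpowers Zu := QuotientGroup.mk' _

theorem qz_Zu : qz Zu = 1 := (QuotientGroup.eq_one_iff Zu).2 (Subgroup.mem_zpowers Zu)

theorem qz_comm : Commute (qz Xu) (qz Yu) := by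
  change qz Xu * qz Yu = qz Yu * qz Xu
  rw [← map_mul, XY_rel, map_mul, map_mul, qz_Zu, one_mul]

theorem qz_eta0 (g : FF) : qz (eta0 g)
    = qz Xu ^ (Multiplicative.toAdd (ex0 g)) * qz Yu ^ (Multiplicative.toAdd (ex1 g)) := by
  have hc := qz_comm
  induction g using FreeGroup.induction_on with
  | C1 => simp
  | of i =>
    fin_cases i
    · simp [eta0, ex0, ex1]
    · simp [eta0, ex0, ex1]
  | inv_of i h =>
    rw [map_inv eta0, map_inv qz, h, map_inv ex0, map_inv ex1, toAdd_inv, toAdd_inv, mul_inv_rev,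
      zpow_neg, zpow_neg]
    exact ((hc.zpow_zpow _ _).inv_inv).eq.symm
  | mul a b ha hb =>
    rw [map_mul eta0, map_mul qz, ha, hb, map_mul ex0, map_mul ex1, toAdd_mul, toAdd_mul, zpow_add,
      zpow_add]
    have h1 := ((hc.zpow_zpow (Multiplicative.toAdd (ex0 b)) (Multiplicative.toAdd (ex1 a)))).eq
    calc _ = qz Xu ^ (Multiplicative.toAdd (ex0 a)) * (qz Yu ^ (Multiplicative.toAdd (ex1 a))
          * qz Xu ^ (Multiplicative.toAdd (ex0 b))) * qz Yu ^ (Multiplicative.toAdd (ex1 b)) := by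
            group
      _ = _ := by rw [← h1]; group

theorem eta0_comm {g : FF} (hg : g ∈ (⊤ : Subgroup FF).lowerCentralSeries 1) :
    eta0 g ∈ Subgroup.zpowers Zu := by
  have h0 : ex0 g = 1 := Abelianization.commutator_subset_ker ex0 hg
  have h1 : ex1 g = 1 := Abelianization.commutator_subset_ker ex1 hg
  have h2 := qz_eta0 g
  rw [h0, h1] at h2
  simp only [toAdd_one, zpow_zero, mul_one] at h2
  exact (QuotientGroup.eq_one_iff _).1 h2

theorem eta0_gamma {g : FF} (hg : g ∈ (⊤ : Subgroup FF).lowerCentralSeries 2) :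
    eta0 g = 1 := by
  have h1 : (⊤ : Subgroup FF).lowerCentralSeries 2 ≤ eta0.ker := by
    rw [Subgroup.lowerCentralSeries_succ, Subgroup.commutator_le]
    intro a ha b _
    rw [MonoidHom.mem_ker, map_commutatorElement]
    obtain ⟨k, hk⟩ := Subgroup.mem_zpowers_iff.1 (eta0_comm ha)
    rw [← hk, commutatorElement_eq_one_iff_mul_comm]
    exact Commute.zpow_left (Zu_comm _) k
  exact h1 hg

/-- the target of the Magnus map -/
abbrev MG : Type := SD (RR × RR) RRˣ

/-- the Magnus map on the free group -/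
noncomputable def theta0 : FF →* MG := FreeGroup.lift ![⟨(1, 0), Xu⟩, ⟨(0, 1), Yu⟩]

theorem theta0_g (g : FF) : (theta0 g).g = eta0 g := by
  have h : (SD.pr : MG →* RRˣ).comp theta0 = eta0 := by
    apply FreeGroup.ext_hom
    intro i
    fin_cases i <;> simp [theta0, eta0]
  exact DFunLike.congr_fun h g

theorem theta0_kills : ⁅(⊤ : Subgroup FF).lowerCentralSeries 2,
    (⊤ : Subgroup FF).lowerCentralSeries 2⁆ ≤ theta0.ker := by
  rw [Subgroup.commutator_le]
  intro a ha b hb
  rw [MonoidHom.mem_ker, map_commutatorElement]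
  have h1 : (theta0 a).g = 1 := by rw [theta0_g, eta0_gamma ha]
  have h2 : (theta0 b).g = 1 := by rw [theta0_g, eta0_gamma hb]
  apply SD.ext
  · rw [SD.comm_v, h1, h2]
    simp
  · rw [SD.comm_g, h1, h2]
    simp

/-- the Magnus map -/
noncomputable def theta : GG →* MG := QuotientGroup.lift _ theta0 (fun _ ha => theta0_kills ha)

/-- the map to the units -/
noncomputable def eta : GG →* RRˣ := (SD.pr : MG →* RRˣ).comp theta

/-- x -/
abbrev gx : GG := gen 2 0
/-- y -/
abbrev gy : GG := gen 2 1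

theorem theta_x : theta gx = ⟨(1, 0), Xu⟩ := by
  change theta0 (FreeGroup.of 0) = _
  simp [theta0]
theorem theta_y : theta gy = ⟨(0, 1), Yu⟩ := by
  change theta0 (FreeGroup.of 1) = _
  simp [theta0]
theorem eta_x : eta gx = Xu := by simp [eta, theta_x]
theorem eta_y : eta gy = Yu := by simp [eta, theta_y]
theorem theta_g (g : GG) : (theta g).g = eta g := rfl

theorem hom_ext2 {K : Type*} [Group K] {f g : GG →* K} (hx : f gx = g gx) (hy : f gy = g gy) :
    f = g := by
  apply hom_ext
  intro i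
  fin_cases i
  · exact hx
  · exact hy

/-- right multiplication by a matrix -/
noncomputable def jmap (p q r s : RR) : MG →* MG where
  toFun a := ⟨(a.v.1 * p + a.v.2 * r, a.v.1 * q + a.v.2 * s), a.g⟩
  map_one' := by
    apply SD.ext <;> simp
  map_mul' := by
    intro a b
    apply SD.ext
    · simp only [SD.mul_v, Prod.fst_add, Prod.snd_add, Prod.smul_fst, Prod.smul_snd, Units.smul_def,
        smul_eq_mul, Prod.smul_mk, Prod.mk_add_mk, Prod.mk.injEq]
      constructor <;> noncomm_ring
    · rfl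

/-- chain rule -/
theorem chain (φ : GG →* GG) (hx : eta (φ gx) = Xu) (hy : eta (φ gy) = Yu) (g : GG) :
    theta (φ g) = jmap (theta (φ gx)).v.1 (theta (φ gx)).v.2 (theta (φ gy)).v.1
      (theta (φ gy)).v.2 (theta g) := by
  have h : theta.comp φ = (jmap (theta (φ gx)).v.1 (theta (φ gx)).v.2 (theta (φ gy)).v.1
      (theta (φ gy)).v.2).comp theta := by
    apply hom_ext2
    · rw [MonoidHom.comp_apply, MonoidHom.comp_apply, theta_x]
      apply SD.ext
      · simp [jmap]
      · exact hx
    · rw [MonoidHom.comp_apply, MonoidHom.comp_apply, theta_y]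
      apply SD.ext
      · simp [jmap]
      · exact hy
  exact DFunLike.congr_fun h g

/-- the fundamental formula -/
theorem fund (g : GG) : (theta g).v.1 * (cst (T 1) - 1) + (theta g).v.2 * (single sh 1 - 1)
    = (eta g : RR) - 1 := by
  let f1 : MG →* SD RR RRˣ :=
    { toFun := fun a => ⟨a.v.1 * (cst (T 1) - 1) + a.v.2 * (single sh 1 - 1), a.g⟩
      map_one' := by apply SD.ext <;> simp
      map_mul' := by
        intro a b
        apply SD.ext
        · simp only [SD.mul_v, Prod.fst_add, Prod.snd_add, Prod.smul_fst, Prod.smul_snd,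
            Units.smul_def, smul_eq_mul]
          noncomm_ring
        · rfl }
  let f2 : RRˣ →* SD RR RRˣ :=
    { toFun := fun u => ⟨(u : RR) - 1, u⟩
      map_one' := by apply SD.ext <;> simp
      map_mul' := by
        intro a b
        apply SD.ext
        · simp only [SD.mul_v, Units.smul_def, smul_eq_mul, Units.val_mul]
          noncomm_ring
        · rfl }
  have h : f1.comp theta = f2.comp eta := by
    apply hom_ext2
    · rw [MonoidHom.comp_apply, MonoidHom.comp_apply, theta_x, eta_x]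
      apply SD.ext
      · simp [f1, f2, Xu]
      · rfl
    · rw [MonoidHom.comp_apply, MonoidHom.comp_apply, theta_y, eta_y]
      apply SD.ext
      · simp [f1, f2, Yu]
      · rfl
  have h2 := congrArg SD.v (DFunLike.congr_fun h g)
  exact h2

end MP15511a
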