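import Pool.Agent.Lib.MP_15511a_al.Skew

/-!
The Fox row of the word is not the first row of an invertible matrix fixing the column
(X - 1, Y - 1).
-/

namespace MP15511a

open SkewMonoidAlgebra

variable {B : Type*} [CommRing B] [MulSemiringAction (Multiplicative ℤ) B]

/-- constants -/
noncomputable abbrev cst (b : B) : SL B := single 1 b

theorem cst_mul (a b : B) : cst (a * b) = cst a * cst b := by
  rw [cst, cst, cst, single_mul_single, one_smul, mul_one]

theorem exists_common [IsDomain B] (a : B) (ha : a ≠ 0) (m : SL B) :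
    ∃ P : B, P ≠ 0 ∧ ∃ s : SL B, cst P * m = s * cst a := by
  induction m using SkewMonoidAlgebra.induction_on with
  | zero => exact ⟨1, one_ne_zero, 0, by simp⟩
  | single g b =>
    refine ⟨g • a, smul_ne_zero' g ha, single g b, ?_⟩
    rw [cst, cst, single_mul_single, single_mul_single, one_smul, one_mul, mul_one, mul_comm]
  | add m m' h h' =>
    obtain ⟨P, hP, s, hs⟩ := h
    obtain ⟨P', hP', s', hs'⟩ := h'
    refine ⟨P * P', mul_ne_zero hP hP', cst P' * s + cst P * s', ?_⟩
    have e1 : cst (P * P') * m = cst P' * s * cst a := by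
      rw [mul_comm P P', cst_mul, mul_assoc, hs, mul_assoc]
    have e2 : cst (P * P') * m' = cst P * s' * cst a := by
      rw [cst_mul, mul_assoc, hs', mul_assoc]
    rw [mul_add, e1, e2, add_mul]

theorem right_reg [IsDomain B] (a : B) (ha : a ≠ 0) (d : SL B) (h : d * cst a = 0) : d = 0 := by
  ext j
  have h1 : (d * cst a).coeff j = 0 := by rw [h]; rfl
  rw [coeff_mul_single_one] at h1
  rcases mul_eq_zero.1 h1 with h2 | h2
  · rw [h2]; rfl
  · exact absurd h2 (smul_ne_zero' j ha)

/-- the shift -/
abbrev sh : Multiplicative ℤ := Multiplicative.ofAdd 1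

theorem noninv [IsDomain B] {K : Type*} [Field K] (xb zb zi al : B)
    (hzz : zb * zi = 1) (hsx : sh • xb = zi * xb) (hsz : sh • zb = zb) (hal : sh • al = al)
    (hx1 : xb - 1 ≠ 0) (hxz : xb - zb ≠ 0)
    (e1 e2 : B →+* K) (h1x : e1 xb = 1) (h2x : e2 xb = e2 zb)
    (h1al : e1 al ≠ 0) (h2al : e2 al ≠ 0)
    (h1z : e1 zb ≠ 1) (h2z : e2 zb ≠ 1) (h1zz : e1 zb ^ 2 ≠ 1) (h2zz : e2 zb ^ 2 ≠ 1)
    (q t p' q' r' s' : SL B)
    (E1 : p' * q + q' * t = 0) (E2 : r' * q + s' * t = 1)
    (E3 : p' * (cst xb - 1) + q' * (single sh 1 - 1) = cst xb - 1)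
    (E4 : r' * (cst xb - 1) + s' * (single sh 1 - 1) = single sh 1 - 1)
    (hq : q = - (cst al * (single 1 (1 - xb) + single sh (zi * xb - zb)))) : False := by
  have hszi : sh • zi = zi := by
    have h : sh • (zb * zi) = 1 := by rw [hzz, smul_one]
    rw [smul_mul', hsz] at h
    calc sh • zi = (zb * zi) * (sh • zi) := by rw [hzz, one_mul]
      _ = zi * (zb * sh • zi) := by ring
      _ = zi := by rw [h, mul_one]
  set a1 : SL B := single 1 (xb - zb) - single sh (zb * (xb - 1)) with ha1
  set a2 : SL B := cst ((xb - 1) * (xb - zb)) with ha2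
  have hcx : cst xb - 1 = cst (xb - 1) := by
    rw [cst, cst, one_def, ← sub_eq_zero]
    ext i
    simp only [coeff_sub, coeff_single, Finsupp.sub_apply, coeff_zero, Finsupp.coe_zero,
      Pi.zero_apply, Finsupp.single_sub]
    ring
  have hrel : a1 * (cst xb - 1) + a2 * (single sh 1 - 1) = 0 := by
    have f1 : a1 * cst (xb - 1) = single 1 ((xb - zb) * (xb - 1))
        - single sh (zb * (xb - 1) * (zi * xb - 1)) := by
      rw [ha1, sub_mul, cst, single_mul_single, single_mul_single, one_smul, mul_one, mul_one,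
        smul_sub, hsx, smul_one]
    have f2 : a2 * (single sh 1 - 1) = single sh ((xb - 1) * (xb - zb))
        - single 1 ((xb - 1) * (xb - zb)) := by
      have h := mul_sub a2 (single sh 1) 1
      rw [h, ha2, cst, single_mul_single, one_mul, one_smul, mul_one, mul_one]
    have e : zb * (xb - 1) * (zi * xb - 1) = (xb - 1) * (xb - zb) := by
      linear_combination (xb - 1) * xb * hzz
    rw [hcx, f1, f2, e, mul_comm (xb - zb) (xb - 1)]
    abel
  set m1 := a1 * p' + a2 * r' with hm1
  set m2 := a1 * q' + a2 * s' with hm2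
  have hm : m1 * (cst xb - 1) + m2 * (single sh 1 - 1) = 0 := by
    calc m1 * (cst xb - 1) + m2 * (single sh 1 - 1)
        = a1 * (p' * (cst xb - 1) + q' * (single sh 1 - 1))
          + a2 * (r' * (cst xb - 1) + s' * (single sh 1 - 1)) := by
            rw [hm1, hm2]; noncomm_ring
      _ = 0 := by rw [E3, E4, hrel]
  have hmt : m1 * q + m2 * t = a2 := by
    calc m1 * q + m2 * t = a1 * (p' * q + q' * t) + a2 * (r' * q + s' * t) := by
            rw [hm1, hm2]; noncomm_ring
      _ = a2 := by rw [E1, E2, mul_zero, mul_one, zero_add]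
  have ha2n : (xb - 1) * (xb - zb) ≠ 0 := mul_ne_zero hx1 hxz
  obtain ⟨P, hP, s0, hs0⟩ := exists_common _ ha2n m2
  have hPm1 : cst P * m1 = s0 * a1 := by
    rw [← sub_eq_zero]
    apply right_reg (xb - 1) hx1
    rw [← hcx]
    calc (cst P * m1 - s0 * a1) * (cst xb - 1)
        = cst P * (m1 * (cst xb - 1) + m2 * (single sh 1 - 1))
          - s0 * (a1 * (cst xb - 1) + a2 * (single sh 1 - 1))
          - (cst P * m2 - s0 * a2) * (single sh 1 - 1) := by noncomm_ring
      _ = 0 := by rw [hm, hrel, hs0, ha2]; simp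
  set u := a1 * q + a2 * t with hu
  have hsu : s0 * u = single 1 (P * ((xb - 1) * (xb - zb))) := by
    calc s0 * u = (s0 * a1) * q + (s0 * a2) * t := by rw [hu]; noncomm_ring
      _ = (cst P * m1) * q + (cst P * m2) * t := by rw [hPm1, hs0, ha2]
      _ = cst P * (m1 * q + m2 * t) := by noncomm_ring
      _ = _ := by rw [hmt, ha2, ← cst_mul]
  obtain ⟨d, hd⟩ := homog s0 u _ (mul_ne_zero hP ha2n) hsu
  -- explicit product
  have hprod : a1 * q = single 1 (-(al * ((xb - zb) * (1 - xb))))
      + single sh (-(al * ((xb - zb) * ((zi * xb - zb) + (xb - 1)))))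
      + single (sh * sh) (al * (zb * (xb - 1) * (zi * (zi * xb) - zb))) := by
    have g1 : cst al * (single 1 (1 - xb) + single sh (zi * xb - zb))
        = single 1 (al * (1 - xb)) + single sh (al * (zi * xb - zb)) := by
      rw [mul_add (cst al), cst, single_mul_single, single_mul_single, one_smul, one_smul,
        one_mul, one_mul]
    have g2 : a1 * (single 1 (al * (1 - xb)) + single sh (al * (zi * xb - zb)))
        = single 1 ((xb - zb) * (al * (1 - xb))) + single sh ((xb - zb) * (al * (zi * xb - zb)))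
        - (single sh (zb * (xb - 1) * (al * (1 - zi * xb)))
          + single (sh * sh) (zb * (xb - 1) * (al * (zi * (zi * xb) - zb)))) := by
      rw [ha1, sub_mul, mul_add (single 1 (xb - zb)), mul_add (single sh (zb * (xb - 1))),
        single_mul_single, single_mul_single, single_mul_single, single_mul_single]
      simp only [one_smul, smul_mul', smul_sub, smul_one, hsx, hsz, hszi, hal, one_mul, mul_one]
    rw [hq, mul_neg, g1, g2]
    have c0 : (xb - zb) * (al * (1 - xb)) = al * ((xb - zb) * (1 - xb)) := by ring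
    have c2 : zb * (xb - 1) * (al * (zi * (zi * xb) - zb))
        = al * (zb * (xb - 1) * (zi * (zi * xb) - zb)) := by ring
    have c1 : (xb - zb) * (al * (zi * xb - zb)) - zb * (xb - 1) * (al * (1 - zi * xb))
        = al * ((xb - zb) * ((zi * xb - zb) + (xb - 1))) := by
      linear_combination (al * (xb - 1) * xb) * hzz
    rw [c0, c2, single_neg, single_neg, ← c1]
    have c3 : ∀ a b : B, (single sh (a - b) : SL B) = single sh a - single sh b := by
      intro a b
      rw [sub_eq_add_neg, single_add, single_neg, sub_eq_add_neg]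
    rw [c3]
    abel
  have hcs : (u.coeff sh) = -(al * ((xb - zb) * ((zi * xb - zb) + (xb - 1))))
      + (xb - 1) * (xb - zb) * t.coeff sh := by
    rw [hu, hprod, coeff_add, Finsupp.add_apply, ha2, coeff_single_one_mul]
    congr 1
    simp [coeff_add, coeff_single]
  have hcss : (u.coeff (sh * sh)) = al * (zb * (xb - 1) * (zi * (zi * xb) - zb))
      + (xb - 1) * (xb - zb) * t.coeff (sh * sh) := by
    rw [hu, hprod, coeff_add, Finsupp.add_apply, ha2, coeff_single_one_mul]
    congr 1
    have n1 : (1 : Multiplicative ℤ) ≠ sh * sh := by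
      intro h
      have h' : (0 : ℤ) = 1 + 1 := congrArg Multiplicative.toAdd h
      omega
    have n2 : sh ≠ sh * sh := by
      intro h
      have h' : (1 : ℤ) = 1 + 1 := congrArg Multiplicative.toAdd h
      omega
    rw [coeff_add, coeff_add, Finsupp.add_apply, Finsupp.add_apply, coeff_single_apply,
      coeff_single_apply, coeff_single_apply, if_neg n1, if_neg n2, if_pos rfl, zero_add, zero_add]
  have hz1 : e1 zb * e1 zi = 1 := by rw [← map_mul, hzz, map_one]
  have hz2 : e2 zb * e2 zi = 1 := by rw [← map_mul, hzz, map_one]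
  by_cases hds : sh = d
  · have hne : sh * sh ≠ d := by
      rw [← hds]; intro h
      have : (1 : ℤ) + 1 = 1 := congrArg Multiplicative.toAdd h
      omega
    have h0 := hd _ hne
    rw [hcss] at h0
    have h3 := congrArg e2 h0
    simp only [map_add, map_mul, map_sub, map_one, map_zero, h2x, sub_self, mul_zero,
      zero_mul, add_zero] at h3
    have h4 : e2 al * ((e2 zb - 1) * (1 - e2 zb ^ 2)) = 0 := by
      have h5 : zb * zi = 1 := hzz
      linear_combination h3 - e2 al * (e2 zb - 1) * (e2 zb * e2 zi + 1) * hz2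
    have h6 : (e2 zb - 1) ≠ 0 := sub_ne_zero.2 h2z
    have h7 : (1 - e2 zb ^ 2) ≠ 0 := sub_ne_zero.2 (Ne.symm h2zz)
    exact mul_ne_zero h2al (mul_ne_zero h6 h7) h4
  · have h0 := hd _ hds
    rw [hcs] at h0
    have h3 := congrArg e1 h0
    simp only [map_add, map_mul, map_sub, map_one, map_zero, map_neg, h1x, sub_self,
      zero_mul, add_zero, mul_one] at h3
    have h4 : e1 al * ((1 - e1 zb) * (1 - e1 zb ^ 2)) = 0 := by
      linear_combination (- e1 zb) * h3 - e1 al * (1 - e1 zb) * hz1
    have h6 : (1 - e1 zb) ≠ 0 := sub_ne_zero.2 (Ne.symm h1z)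
    have h7 : (1 - e1 zb ^ 2) ≠ 0 := sub_ne_zero.2 (Ne.symm h1zz)
    exact mul_ne_zero h1al (mul_ne_zero h6 h7) h4

end MP15511a
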