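import Pool.Agent.Lib.MP_15511a_al.Magnus

/-!
The word `[[y, z]^m, z^(2n)] x` is not primitive in `F_2(A N_2)` for nonzero m and n.
-/

open scoped commutatorElement

namespace MP15511a

open SkewMonoidAlgebra LaurentPolynomial

/-- constants as a ring homomorphism -/
noncomputable def cC : ℚ →+* RR where
  toFun r := cst (C r)
  map_one' := by rw [map_one]; rfl
  map_mul' := by intro a b; rw [map_mul, cst_mul]
  map_zero' := by rw [map_zero, cst, single_zero]
  map_add' := by intro a b; rw [map_add, cst, cst, cst, single_add]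

theorem cC_apply (r : ℚ) : cC r = cst (C r) := rfl

theorem Zu_zpow (k : ℤ) : ((Zu ^ k : RRˣ) : RR) = cC ((2 : ℚ) ^ k) := by
  have h : Zu = Units.map (cC : ℚ →* RR) (Units.mk0 2 two_ne_zero) := Units.ext rfl
  rw [h, ← map_zpow, Units.coe_map, Units.val_zpow_eq_zpow_val]
  rfl

theorem Ppoly : 1 - cC 2 + ((Yu : RR) - 1) * ((Xu : RR) - cC 2)
    = single 1 (1 - T 1) + single sh (C (1 / 2) * T 1 - C 2) := by
  have h1 : (Yu : RR) * (Xu : RR) = single sh (C (1 / 2) * T 1) := by
    change (single sh 1 : RR) * single 1 (T 1) = _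
    rw [single_mul_single, mul_one, one_mul, sh_T]
  have h2 : (Yu : RR) * cC 2 = single sh (C 2) := by
    change (single sh 1 : RR) * single 1 (C 2) = _
    rw [single_mul_single, mul_one, one_mul, sh_C]
  have h3 : (Xu : RR) = single 1 (T 1) := rfl
  have h4 : (1 : RR) = single 1 1 := rfl
  have h5 : (single sh (C (1 / 2) * T 1 - C 2) : RR)
      = single sh (C (1 / 2) * T 1) - single sh (C 2) := by
    rw [eq_sub_iff_add_eq, ← single_add, sub_add_cancel]
  have h6 : (single 1 (1 - T 1) : RR) = 1 - single 1 (T 1) := by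
    rw [eq_sub_iff_add_eq, ← single_add, sub_add_cancel, h4]
  calc 1 - cC 2 + ((Yu : RR) - 1) * ((Xu : RR) - cC 2)
      = 1 - (Xu : RR) + ((Yu : RR) * (Xu : RR) - (Yu : RR) * cC 2) := by noncomm_ring
    _ = _ := by rw [h1, h2, h3, h5, h6]

theorem q_word (m n : ℤ) : (theta (word m n gx gy)).v.2
    = - (cst (C ((m : ℚ) * (4 ^ n - 1))) * (single 1 (1 - T 1)
      + single sh (C (1 / 2) * T 1 - C 2))) := by
  rw [map_word, theta_x, theta_y,
    SD.word_v _ _ _ _ _ _ (by intro u; rw [XY_comm, comm_Zu, one_smul]), XY_comm]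
  simp only [Prod.snd_add, Prod.snd_sub, Prod.smul_snd, Units.smul_def, smul_eq_mul, mul_zero,
    mul_one, zero_add, sub_self]
  rw [← Ppoly, ← cC_apply, Zu_zpow]
  have hz : (Zu : RR) = cC 2 := rfl
  have h4 : (2 : ℚ) ^ (2 * n) = 4 ^ n := by
    rw [zpow_mul]; norm_num
  rw [hz, h4, zsmul_eq_mul, map_mul, map_sub, map_one, map_intCast]
  noncomm_ring

theorem eta_word (m n : ℤ) : eta (word m n gx gy) = Xu := by
  rw [map_word, eta_x, eta_y, word, XY_comm, comm_Zu, one_zpow, commutatorElement_one_left,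
    one_mul]

/-- the core of the argument -/
theorem core (m n : ℤ) (hm : m ≠ 0) (hn : n ≠ 0) (φ ψ : GG →* GG) (hφψ : ∀ g, φ (ψ g) = g)
    (hφx : φ gx = word m n gx gy) (hy : eta (φ gy) = Yu) : False := by
  have hx : eta (φ gx) = Xu := by rw [hφx, eta_word]
  have he : eta.comp φ = eta := by
    apply hom_ext2
    · rw [MonoidHom.comp_apply, hx, eta_x]
    · rw [MonoidHom.comp_apply, hy, eta_y]
  have heψ : ∀ g, eta (ψ g) = eta g := by
    intro g
    have h := DFunLike.congr_fun he (ψ g)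
    rw [MonoidHom.comp_apply, hφψ] at h
    exact h.symm
  have c1 := congrArg SD.v (chain φ hx hy (ψ gx))
  have c2 := congrArg SD.v (chain φ hx hy (ψ gy))
  rw [hφψ, theta_x] at c1
  rw [hφψ, theta_y] at c2
  have E1 := (congrArg Prod.snd c1).symm
  have E2 := (congrArg Prod.snd c2).symm
  have E3 := fund (ψ gx)
  have E4 := fund (ψ gy)
  rw [heψ, eta_x] at E3
  rw [heψ, eta_y] at E4
  have hq := (congrArg (fun g => (theta g).v.2) hφx).trans (q_word m n)
  have hal : (m : ℚ) * (4 ^ n - 1) ≠ 0 := by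
    refine mul_ne_zero (by exact_mod_cast hm) ?_
    rw [sub_ne_zero]
    intro h
    exact hn ((zpow_eq_one_iff_right₀ (by norm_num) (by norm_num)).1 h)
  exact noninv_inst _ hal _ _ _ _ _ _ E1 E2 E3 E4 hq

/-- the integers lie in the variety -/
theorem inAN_int : InAN 2 (Multiplicative ℤ) := by
  rw [InAN, Subgroup.commutator_eq_bot_iff_le_centralizer]
  intro a _ b _
  exact mul_comm b a

/-- exponent of y -/
def e1 : GG →* Multiplicative ℤ := liftAN inAN_int ![1, Multiplicative.ofAdd 1]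

theorem e1_x : e1 gx = 1 := by simp [e1]
theorem e1_y : e1 gy = Multiplicative.ofAdd 1 := by simp [e1]

theorem e1_mk (g : FF) : e1 (QuotientGroup.mk g) = ex1 g := by
  have h : e1.comp (QuotientGroup.mk' _) = ex1 := by
    apply FreeGroup.ext_hom
    intro i
    fin_cases i
    · exact e1_x.trans (by simp [ex1])
    · exact e1_y.trans (by simp [ex1])
  exact DFunLike.congr_fun h g

theorem e1_word (m n : ℤ) : e1 (word m n gx gy) = 1 := by
  have h : ∀ a b : Multiplicative ℤ, ⁅a, b⁆ = 1 := fun a b =>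
    commutatorElement_eq_one_iff_mul_comm.2 (mul_comm a b)
  rw [map_word, word, h (⁅e1 gy, ⁅e1 gx, e1 gy⁆⁆ ^ m), one_mul, e1_x]

/-- shape of the image in the units -/
theorem eta_shape (g : GG) : ∃ i k : ℤ,
    eta g = Xu ^ i * Yu ^ (Multiplicative.toAdd (e1 g)) * Zu ^ k := by
  obtain ⟨g, rfl⟩ := QuotientGroup.mk_surjective g
  have h1 := qz_eta0 g
  rw [← map_zpow, ← map_zpow, ← map_mul] at h1
  obtain ⟨k, hk⟩ := Subgroup.mem_zpowers_iff.1 (QuotientGroup.eq.1 h1.symm)
  refine ⟨Multiplicative.toAdd (ex0 g), k, ?_⟩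
  rw [hk, e1_mk, mul_inv_cancel_left]
  exact theta0_g g

theorem hom_int (f : GG →* Multiplicative ℤ) (hx : f gx = 1) (g : GG) :
    f g = (f gy) ^ (Multiplicative.toAdd (e1 g)) := by
  have h : f = (zpowersHom (Multiplicative ℤ) (f gy)).comp e1 := by
    apply hom_ext2
    · rw [MonoidHom.comp_apply, e1_x, map_one, hx]
    · rw [MonoidHom.comp_apply, e1_y, zpowersHom_apply, toAdd_ofAdd, zpow_one]
  have h2 := DFunLike.congr_fun h g
  rw [MonoidHom.comp_apply, zpowersHom_apply] at h2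
  exact h2

theorem lift_x (a b : GG) : liftAN (inAN_free 2 2) ![a, b] gx = a := liftAN_gen _ _ 0
theorem lift_y (a b : GG) : liftAN (inAN_free 2 2) ![a, b] gy = b := liftAN_gen _ _ 1

theorem no_hom0 (m n : ℤ) (hm : m ≠ 0) (hn : n ≠ 0) (φ ψ : GG →* GG) (hφψ : ∀ g, φ (ψ g) = g)
    (hφx : φ gx = word m n gx gy) : False := by
  have hx : eta (φ gx) = Xu := by rw [hφx, eta_word]
  obtain ⟨i, k, hik⟩ := eta_shape (φ gy)
  have hs : Multiplicative.toAdd (e1 (φ gy)) = 1 ∨ Multiplicative.toAdd (e1 (φ gy)) = -1 := by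
    have h1 := hom_int (e1.comp φ) (by rw [MonoidHom.comp_apply, hφx, e1_word]) (ψ gy)
    rw [MonoidHom.comp_apply, MonoidHom.comp_apply, hφψ, e1_y] at h1
    have h2 := congrArg Multiplicative.toAdd h1
    rw [toAdd_zpow, toAdd_ofAdd, smul_eq_mul] at h2
    exact Int.isUnit_iff.1 (IsUnit.of_mul_eq_one_right _ h2.symm)
  have key : ∀ τ τ' : GG →* GG, τ gx = gx → (∀ g, τ (τ' g) = g) →
      eta (φ (τ gy)) = Yu → False := by
    intro τ τ' h1 h2 h3
    refine core m n hm hn (φ.comp τ) (τ'.comp ψ) ?_ ?_ ?_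
    · intro g
      rw [MonoidHom.comp_apply, MonoidHom.comp_apply, h2, hφψ]
    · rw [MonoidHom.comp_apply, h1, hφx]
    · rw [MonoidHom.comp_apply, h3]
  have hZ : ∀ (c : ℤ) (u : RRˣ), u * Zu ^ c = Zu ^ c * u := fun c u =>
    (Commute.zpow_left (Zu_comm u) c).eq.symm
  rcases hs with hs | hs
  · rw [hs, zpow_one] at hik
    set l : ℤ := -k with hl
    refine key (liftAN (inAN_free 2 2) ![gx, gx ^ (l - i) * gy * gx ^ (-l)])
      (liftAN (inAN_free 2 2) ![gx, gx ^ (i - l) * gy * gx ^ l]) ?_ ?_ ?_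
    · exact lift_x _ _
    · intro g
      have h : (liftAN (inAN_free 2 2) ![gx, gx ^ (l - i) * gy * gx ^ (-l)]).comp
          (liftAN (inAN_free 2 2) ![gx, gx ^ (i - l) * gy * gx ^ l]) = MonoidHom.id GG := by
        apply hom_ext2
        · rw [MonoidHom.comp_apply, lift_x, lift_x, MonoidHom.id_apply]
        · rw [MonoidHom.comp_apply, lift_y, map_mul, map_mul, map_zpow, map_zpow, lift_x, lift_y,
            MonoidHom.id_apply]
          group
      exact DFunLike.congr_fun h g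
    · rw [lift_y, map_mul, map_mul, map_zpow, map_zpow, map_mul, map_mul, map_zpow, map_zpow,
        hik, hx, hZ k]
      calc _ = Xu ^ (l - i) * (Zu ^ k * (Xu ^ i * Yu)) * Xu ^ (-l) := by group
        _ = Zu ^ k * (Xu ^ l * Yu) * Xu ^ (-l) := by
          rw [← mul_assoc (Xu ^ (l - i)), hZ k (Xu ^ (l - i)), mul_assoc (Zu ^ k),
            ← mul_assoc (Xu ^ (l - i)), ← zpow_add, sub_add_cancel]
        _ = Yu := by
          rw [conj_pow, hl]; group
  · rw [hs] at hik
    set l : ℤ := k - i with hl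
    refine key (liftAN (inAN_free 2 2) ![gx, gx ^ (l + i) * gy⁻¹ * gx ^ (-l)])
      (liftAN (inAN_free 2 2) ![gx, gx ^ (-l) * gy⁻¹ * gx ^ (i + l)]) ?_ ?_ ?_
    · exact lift_x _ _
    · intro g
      have h : (liftAN (inAN_free 2 2) ![gx, gx ^ (l + i) * gy⁻¹ * gx ^ (-l)]).comp
          (liftAN (inAN_free 2 2) ![gx, gx ^ (-l) * gy⁻¹ * gx ^ (i + l)]) = MonoidHom.id GG := by
        apply hom_ext2
        · rw [MonoidHom.comp_apply, lift_x, lift_x, MonoidHom.id_apply]
        · rw [MonoidHom.comp_apply, lift_y, map_mul, map_mul, map_zpow, map_zpow, map_inv, lift_x,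
            lift_y, MonoidHom.id_apply]
          group
      exact DFunLike.congr_fun h g
    · rw [lift_y, map_mul, map_mul, map_zpow, map_zpow, map_mul, map_mul, map_zpow, map_zpow,
        map_inv, map_inv, hik, hx]
      calc _ = Xu ^ (l + i) * Zu ^ (-k) * Yu * Xu ^ (- (l + i)) := by group
        _ = Zu ^ (-k) * (Xu ^ (l + i) * Yu) * Xu ^ (-(l + i)) := by
          rw [hZ (-k), mul_assoc (Zu ^ (-k))]
        _ = Yu := by
          rw [conj_pow, hl]; group

/-- The word is not primitive. -/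
theorem not_primitive (m n : ℤ) (hm : m ≠ 0) (hn : n ≠ 0) :
    ¬ Primitive (word m n gx gy : FreeAN 2 2) := by
  intro h
  obtain ⟨φ, ψ, i, h1, h2⟩ := h.exists_hom
  fin_cases i
  · exact no_hom0 m n hm hn φ ψ h1 h2
  · let sw : GG →* GG := liftAN (inAN_free 2 2) ![gy, gx]
    have hsx : sw gx = gy := lift_x _ _
    have hsy : sw gy = gx := lift_y _ _
    have hsw : ∀ g, sw (sw g) = g := by
      intro g
      have h : sw.comp sw = MonoidHom.id GG := by
        apply hom_ext2
        · rw [MonoidHom.comp_apply, hsx, hsy, MonoidHom.id_apply]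
        · rw [MonoidHom.comp_apply, hsy, hsx, MonoidHom.id_apply]
      exact DFunLike.congr_fun h g
    refine no_hom0 m n hm hn (φ.comp sw) (sw.comp ψ) ?_ ?_
    · intro g
      rw [MonoidHom.comp_apply, MonoidHom.comp_apply, hsw, h1]
    · rw [MonoidHom.comp_apply, hsx]
      exact h2

end MP15511a
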