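import Mathlib

/-!
Skew Laurent polynomials over a commutative domain: a factor of a nonzero constant is a monomial.
-/

namespace MP15511a

open SkewMonoidAlgebra

variable {B : Type*} [CommRing B] [MulSemiringAction (Multiplicative ℤ) B]

/-- skew Laurent polynomials -/
abbrev SL (B : Type*) [CommRing B] : Type _ := SkewMonoidAlgebra B (Multiplicative ℤ)

theorem smul_ne_zero' (g : Multiplicative ℤ) {b : B} (hb : b ≠ 0) : g • b ≠ 0 := by
  intro h
  apply hb
  have : g⁻¹ • (g • b) = g⁻¹ • (0 : B) := by rw [h]
  simpa using this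

theorem coeff_mul_top (s u : SL B) (a b : Multiplicative ℤ)
    (hs : ∀ i, s.coeff i ≠ 0 → i ≤ a) (hu : ∀ i, u.coeff i ≠ 0 → i ≤ b) :
    (s * u).coeff (a * b) = s.coeff a * a • u.coeff b := by
  classical
  rw [coeff_mul_left, SkewMonoidAlgebra.sum_def]
  rw [Finsupp.sum]
  rw [Finset.sum_eq_single a]
  · simp
  · intro i hi hia
    have h1 : i ≤ a := hs i (by simpa using hi)
    have h2 : i < a := lt_of_le_of_ne h1 hia
    have h3 : u.coeff (i⁻¹ * (a * b)) = 0 := by
      by_contra h
      have h4 := hu _ h
      have h5 : i * (i⁻¹ * (a * b)) ≤ i * b := mul_le_mul_right h4 i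
      rw [mul_inv_cancel_left] at h5
      have h6 : i * b < a * b := mul_lt_mul_left h2 b
      exact absurd h5 (not_le.mpr h6)
    rw [h3]; simp
  · intro h
    have : s.coeff a = 0 := by simpa using h
    rw [this]; simp

theorem coeff_mul_bot (s u : SL B) (a b : Multiplicative ℤ)
    (hs : ∀ i, s.coeff i ≠ 0 → a ≤ i) (hu : ∀ i, u.coeff i ≠ 0 → b ≤ i) :
    (s * u).coeff (a * b) = s.coeff a * a • u.coeff b := by
  classical
  rw [coeff_mul_left, SkewMonoidAlgebra.sum_def]
  rw [Finsupp.sum]
  rw [Finset.sum_eq_single a]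
  · simp
  · intro i hi hia
    have h1 : a ≤ i := hs i (by simpa using hi)
    have h2 : a < i := lt_of_le_of_ne h1 (Ne.symm hia)
    have h3 : u.coeff (i⁻¹ * (a * b)) = 0 := by
      by_contra h
      have h4 := hu _ h
      have h5 : i * b ≤ i * (i⁻¹ * (a * b)) := mul_le_mul_right h4 i
      rw [mul_inv_cancel_left] at h5
      have h6 : a * b < i * b := mul_lt_mul_left h2 b
      exact absurd h5 (not_le.mpr h6)
    rw [h3]; simp
  · intro h
    have : s.coeff a = 0 := by simpa using h
    rw [this]; simp

/-- A right factor of a nonzero constant is homogeneous. -/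
theorem homog [IsDomain B] (s u : SL B) (b : B) (hb : b ≠ 0) (h : s * u = single 1 b) :
    ∃ d : Multiplicative ℤ, ∀ i, i ≠ d → u.coeff i = 0 := by
  classical
  have hs0 : s ≠ 0 := by
    rintro rfl
    rw [zero_mul] at h
    exact hb ((single_eq_zero (a := (1 : Multiplicative ℤ))).1 h.symm)
  have hu0 : u ≠ 0 := by
    rintro rfl
    rw [mul_zero] at h
    exact hb ((single_eq_zero (a := (1 : Multiplicative ℤ))).1 h.symm)
  have hsn : s.support.Nonempty := by
    rw [Finset.nonempty_iff_ne_empty, Ne, support_eq_empty]; exact hs0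
  have hun : u.support.Nonempty := by
    rw [Finset.nonempty_iff_ne_empty, Ne, support_eq_empty]; exact hu0
  have ms1 : ∀ i, s.coeff i ≠ 0 → i ≤ s.support.max' hsn :=
    fun i hi => s.support.le_max' i (mem_support_iff.2 hi)
  have ms2 : ∀ i, s.coeff i ≠ 0 → s.support.min' hsn ≤ i :=
    fun i hi => s.support.min'_le i (mem_support_iff.2 hi)
  have mu1 : ∀ i, u.coeff i ≠ 0 → i ≤ u.support.max' hun :=
    fun i hi => u.support.le_max' i (mem_support_iff.2 hi)
  have mu2 : ∀ i, u.coeff i ≠ 0 → u.support.min' hun ≤ i :=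
    fun i hi => u.support.min'_le i (mem_support_iff.2 hi)
  have es1 := mem_support_iff.1 (s.support.max'_mem hsn)
  have es2 := mem_support_iff.1 (s.support.min'_mem hsn)
  have eu1 := mem_support_iff.1 (u.support.max'_mem hun)
  have eu2 := mem_support_iff.1 (u.support.min'_mem hun)
  have ht := coeff_mul_top s u _ _ ms1 mu1
  have hbt := coeff_mul_bot s u _ _ ms2 mu2
  rw [h, coeff_single_apply] at ht hbt
  have t1 : (1 : Multiplicative ℤ) = s.support.max' hsn * u.support.max' hun := by
    by_contra hne
    rw [if_neg hne] at ht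
    exact mul_ne_zero es1 (smul_ne_zero' _ eu1) ht.symm
  have t2 : (1 : Multiplicative ℤ) = s.support.min' hsn * u.support.min' hun := by
    by_contra hne
    rw [if_neg hne] at hbt
    exact mul_ne_zero es2 (smul_ne_zero' _ eu2) hbt.symm
  have o1 : s.support.min' hsn ≤ s.support.max' hsn := Finset.min'_le_max' _ _
  have o2 : u.support.min' hun ≤ u.support.max' hun := Finset.min'_le_max' _ _
  have o3 : u.support.min' hun = u.support.max' hun := by
    rcases eq_or_lt_of_le o2 with h' | h'
    · exact h'
    · exfalso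
      have : s.support.min' hsn * u.support.min' hun < s.support.max' hsn * u.support.max' hun :=
        mul_lt_mul_of_le_of_lt o1 h'
      rw [← t1, ← t2] at this
      exact lt_irrefl _ this
  refine ⟨u.support.max' hun, fun i hi => ?_⟩
  by_contra hc
  exact hi (le_antisymm (mu1 i hc) (o3 ▸ mu2 i hc))

end MP15511a
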