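import Pool.Agent.Lib.MP_15511a_al.Surj

/-!
Lifting a generating pair (w, v) modulo a minimal normal subgroup.
-/

open scoped commutatorElement Pointwise

namespace MP15511a

theorem word_mem {Q : Type*} [Group Q] (H : Subgroup Q) (m n : ℤ) {x y : Q} (hx : x ∈ H)
    (hy : y ∈ H) : word m n x y ∈ H := by
  have hc : ∀ {a b : Q}, a ∈ H → b ∈ H → ⁅a, b⁆ ∈ H := by
    intro a b ha hb
    rw [commutatorElement_def]
    exact H.mul_mem (H.mul_mem (H.mul_mem ha hb) (H.inv_mem ha)) (H.inv_mem hb)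
  exact H.mul_mem (hc (H.zpow_mem (hc hy (hc hx hy)) _) (H.zpow_mem (hc hx hy) _)) hx

variable {V Q : Type*} [AddCommGroup V] [Group Q] [DistribMulAction Q V]

/-- the derivative as a homomorphism -/
def dw (x y : Q) (m n : ℤ) (hy : ∀ u : V, ⁅y, ⁅x, y⁆⁆ • u = u) : V × V →+ V :=
  AddMonoidHom.mk' (fun p => (word m n (⟨p.1, x⟩ : SD V Q) ⟨p.2, y⟩).v) (by
    intro p q
    simp only [SD.word_v x y _ _ m n hy, Prod.fst_add, Prod.snd_add, smul_add, smul_sub]
    abel)

theorem card_ker_dw [Finite V] (x y : Q) (m n : ℤ) (hy : ∀ u : V, ⁅y, ⁅x, y⁆⁆ • u = u)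
    (hx : ∀ u : V, ⁅x, ⁅x, y⁆⁆ • u = u) :
    Nat.card (dw x y m n hy).ker = Nat.card V := by
  have h1 := AddSubgroup.card_mul_index (dw x y m n hy).ker
  rw [AddSubgroup.index_ker] at h1
  have h2 : (dw x y m n hy).range = ⊤ := by
    rw [AddMonoidHom.range_eq_top]
    intro t
    obtain ⟨a, b, hab⟩ := word_surj x y m n hy hx t
    exact ⟨(a, b), hab⟩
  rw [h2, AddSubgroup.card_top, Nat.card_prod] at h1
  exact Nat.eq_of_mul_eq_mul_right Nat.card_pos h1

theorem step [Finite Q] (ι : Multiplicative V →* Q) (hinj : Function.Injective ι)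
    (hact : ∀ (g : Q) (u : V), ι (Multiplicative.ofAdd (g • u))
      = g * ι (Multiplicative.ofAdd u) * g⁻¹)
    (hmin : ∀ H : Subgroup Q, H.Normal → H ≤ ι.range → H = ⊥ ∨ H = ι.range)
    (x y : Q) (hgen : Subgroup.closure {x, y} = ⊤) (m n : ℤ)
    (hy : ∀ u : V, ⁅y, ⁅x, y⁆⁆ • u = u) (hx : ∀ u : V, ⁅x, ⁅x, y⁆⁆ • u = u)
    (v0 : Q) (h0 : Subgroup.closure {word m n x y, v0} ⊔ ι.range = ⊤) :
    ∃ v : Q, Subgroup.closure {word m n x y, v} = ⊤ := by
  classical
  by_contra hne
  push Not at hne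
  set W := word m n x y with hW
  have hVfin : Finite V := by
    have : Finite (Multiplicative V) := Finite.of_injective ι hinj
    exact this
  have hN : ι.range.Normal := by
    constructor
    rintro _ ⟨u, rfl⟩ g
    exact ⟨Multiplicative.ofAdd (g • Multiplicative.toAdd u), hact g _⟩
  let S : V → Subgroup Q := fun u => Subgroup.closure {W, v0 * ι (Multiplicative.ofAdd u)}
  have hWS : ∀ u, W ∈ S u := fun u => Subgroup.subset_closure (by simp)
  have hvS : ∀ u, v0 * ι (Multiplicative.ofAdd u) ∈ S u :=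
    fun u => Subgroup.subset_closure (by simp)
  have hSN : ∀ u, S u ⊔ ι.range = ⊤ := by
    intro u
    rw [eq_top_iff, ← h0]
    apply sup_le _ le_sup_right
    rw [Subgroup.closure_le]
    intro g hg
    simp only [Set.mem_insert_iff, Set.mem_singleton_iff] at hg
    rcases hg with hg | hg
    · rw [hg]; exact Subgroup.mem_sup_left (hWS u)
    · rw [hg]
      have h1 : v0 * ι (Multiplicative.ofAdd u) ∈ S u ⊔ ι.range := Subgroup.mem_sup_left (hvS u)
      have h2 : (ι (Multiplicative.ofAdd u))⁻¹ ∈ S u ⊔ ι.range :=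
        Subgroup.mem_sup_right (Subgroup.inv_mem _ ⟨_, rfl⟩)
      have h3 := Subgroup.mul_mem _ h1 h2
      rw [mul_inv_cancel_right] at h3
      exact h3
  have hcomm : ∀ a ∈ ι.range, ∀ b ∈ ι.range, a * b = b * a := by
    rintro _ ⟨a, rfl⟩ _ ⟨b, rfl⟩
    rw [← map_mul, mul_comm, map_mul]
  have hdec : ∀ (H : Subgroup Q), H ⊔ ι.range = ⊤ → ∀ g : Q, ∃ u : V,
      ι (Multiplicative.ofAdd u) * g ∈ H := by
    intro H hH g
    have h1 : g ∈ (↑(ι.range ⊔ H) : Set Q) := by
      rw [sup_comm, hH]; exact Set.mem_univ g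
    rw [Subgroup.normal_mul] at h1
    obtain ⟨_, ⟨u, rfl⟩, s, hs, rfl⟩ := Set.mem_mul.1 h1
    refine ⟨Multiplicative.toAdd u⁻¹, ?_⟩
    have : Multiplicative.ofAdd (Multiplicative.toAdd u⁻¹) = u⁻¹ := rfl
    rw [this, map_inv, inv_mul_cancel_left]
    exact hs
  have hSbot : ∀ u, S u ⊓ ι.range = ⊥ := by
    intro u
    have hnorm : (S u ⊓ ι.range).Normal := by
      constructor
      intro k hk g
      obtain ⟨c, hc⟩ := hdec (S u) (hSN u) g
      rw [Subgroup.mem_inf] at hk ⊢
      refine ⟨?_, hN.conj_mem k hk.2 g⟩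
      set s := ι (Multiplicative.ofAdd c) * g with hs
      have e1 : g * k * g⁻¹ = (ι (Multiplicative.ofAdd c))⁻¹ * (s * k * s⁻¹)
          * ι (Multiplicative.ofAdd c) := by rw [hs]; group
      have e2 : s * k * s⁻¹ ∈ ι.range := hN.conj_mem k hk.2 s
      have e3 : (ι (Multiplicative.ofAdd c))⁻¹ * (s * k * s⁻¹)
          = (s * k * s⁻¹) * (ι (Multiplicative.ofAdd c))⁻¹ :=
        hcomm _ (Subgroup.inv_mem _ ⟨_, rfl⟩) _ e2
      rw [e1, e3, inv_mul_cancel_right]
      exact (S u).mul_mem ((S u).mul_mem hc hk.1) ((S u).inv_mem hc)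
    rcases hmin _ hnorm inf_le_right with h | h
    · exact h
    · exfalso
      have h1 : ι.range ≤ S u := by rw [← h]; exact inf_le_left
      have h2 : S u = ⊤ := by rw [← hSN u]; exact (sup_eq_left.2 h1).symm
      exact hne _ h2
  choose A hA using fun u => hdec (S u) (hSN u) x
  choose B hB using fun u => hdec (S u) (hSN u) y
  -- the homomorphism from the semidirect product
  let μ : SD V Q →* Q :=
    { toFun := fun a => ι (Multiplicative.ofAdd a.v) * a.g
      map_one' := by simp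
      map_mul' := by
        intro a b
        simp only [SD.mul_v, SD.mul_g, ofAdd_add, map_mul, hact]
        group }
  have hμ : ∀ a : SD V Q, μ a = ι (Multiplicative.ofAdd a.v) * a.g := fun a => rfl
  have hker : ∀ u, (A u, B u) ∈ (dw x y m n hy).ker := by
    intro u
    rw [AddMonoidHom.mem_ker]
    change (word m n (⟨A u, x⟩ : SD V Q) ⟨B u, y⟩).v = 0
    set e := (word m n (⟨A u, x⟩ : SD V Q) ⟨B u, y⟩).v with he
    have h1 : word m n (ι (Multiplicative.ofAdd (A u)) * x) (ι (Multiplicative.ofAdd (B u)) * y)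
        = ι (Multiplicative.ofAdd e) * W := by
      have h2 := map_word μ m n (⟨A u, x⟩ : SD V Q) ⟨B u, y⟩
      rw [hμ, hμ, hμ, SD.word_g] at h2
      exact h2.symm
    have h3 : ι (Multiplicative.ofAdd e) * W ∈ S u := by
      rw [← h1]; exact word_mem (S u) m n (hA u) (hB u)
    have h4 : ι (Multiplicative.ofAdd e) ∈ S u := by
      have := (S u).mul_mem h3 ((S u).inv_mem (hWS u))
      rwa [mul_inv_cancel_right] at this
    have h5 : ι (Multiplicative.ofAdd e) ∈ S u ⊓ ι.range := ⟨h4, ⟨_, rfl⟩⟩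
    rw [hSbot u, Subgroup.mem_bot] at h5
    have h6 : Multiplicative.ofAdd e = 1 := hinj (by rw [h5, map_one])
    exact h6
  let F : V → (dw x y m n hy).ker := fun u => ⟨(A u, B u), hker u⟩
  have hFinj : Function.Injective F := by
    intro u k huk
    have e0 : (A u, B u) = (A k, B k) := congrArg Subtype.val huk
    have eA : A u = A k := (Prod.ext_iff.1 e0).1
    have eB : B u = B k := (Prod.ext_iff.1 e0).2
    set T := Subgroup.closure {ι (Multiplicative.ofAdd (A u)) * x,
      ι (Multiplicative.ofAdd (B u)) * y} with hT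
    have hT1 : ι (Multiplicative.ofAdd (A u)) * x ∈ T := Subgroup.subset_closure (by simp)
    have hT2 : ι (Multiplicative.ofAdd (B u)) * y ∈ T := Subgroup.subset_closure (by simp)
    have hTk : T ≤ S k := by
      rw [hT, Subgroup.closure_le]
      intro g hg
      simp only [Set.mem_insert_iff, Set.mem_singleton_iff] at hg
      rcases hg with rfl | rfl
      · rw [eA]; exact hA k
      · rw [eB]; exact hB k
    have hTN : T ⊔ ι.range = ⊤ := by
      rw [eq_top_iff, ← hgen, Subgroup.closure_le]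
      intro g hg
      simp only [Set.mem_insert_iff, Set.mem_singleton_iff] at hg
      rcases hg with rfl | rfl
      · have h1 := Subgroup.mul_mem (T ⊔ ι.range)
          (Subgroup.mem_sup_right (Subgroup.inv_mem _ ⟨Multiplicative.ofAdd (A u), rfl⟩))
          (Subgroup.mem_sup_left hT1)
        rwa [inv_mul_cancel_left] at h1
      · have h1 := Subgroup.mul_mem (T ⊔ ι.range)
          (Subgroup.mem_sup_right (Subgroup.inv_mem _ ⟨Multiplicative.ofAdd (B u), rfl⟩))
          (Subgroup.mem_sup_left hT2)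
        rwa [inv_mul_cancel_left] at h1
    have hTu : T ≤ S u := by
      rw [hT, Subgroup.closure_le]
      intro g hg
      simp only [Set.mem_insert_iff, Set.mem_singleton_iff] at hg
      rcases hg with rfl | rfl
      · exact hA u
      · exact hB u
    have hST : S u ≤ T := by
      intro s hs
      obtain ⟨c, hc⟩ := hdec T hTN s
      have h1 : ι (Multiplicative.ofAdd c) ∈ S u := by
        have := (S u).mul_mem (hTu hc) ((S u).inv_mem hs)
        rwa [mul_inv_cancel_right] at this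
      have h5 : ι (Multiplicative.ofAdd c) ∈ S u ⊓ ι.range := ⟨h1, ⟨_, rfl⟩⟩
      rw [hSbot u, Subgroup.mem_bot] at h5
      rwa [h5, one_mul] at hc
    have h1 : v0 * ι (Multiplicative.ofAdd u) ∈ S k := hTk (hST (hvS u))
    have h2 := (S k).mul_mem ((S k).inv_mem h1) (hvS k)
    have h3 : (v0 * ι (Multiplicative.ofAdd u))⁻¹ * (v0 * ι (Multiplicative.ofAdd k))
        = ι ((Multiplicative.ofAdd u)⁻¹ * Multiplicative.ofAdd k) := by
      rw [map_mul, map_inv]; group
    rw [h3] at h2
    have h5 : ι ((Multiplicative.ofAdd u)⁻¹ * Multiplicative.ofAdd k) ∈ S k ⊓ ι.range :=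
      ⟨h2, ⟨_, rfl⟩⟩
    rw [hSbot k, Subgroup.mem_bot] at h5
    have h6 : (Multiplicative.ofAdd u)⁻¹ * Multiplicative.ofAdd k = 1 :=
      hinj (by rw [h5, map_one])
    rw [inv_mul_eq_one] at h6
    exact Multiplicative.ofAdd.injective h6
  have hFb : Function.Bijective F :=
    hFinj.bijective_of_nat_card_le (card_ker_dw x y m n hy hx).le
  obtain ⟨u, hu⟩ := hFb.2 ⟨(0, 0), by
    rw [AddMonoidHom.mem_ker]
    exact map_zero (dw x y m n hy)⟩
  have e0 : (A u, B u) = (0, 0) := congrArg Subtype.val hu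
  have eA : A u = 0 := (Prod.ext_iff.1 e0).1
  have eB : B u = 0 := (Prod.ext_iff.1 e0).2
  have hx' := hA u
  have hy' := hB u
  rw [eA, ofAdd_zero, map_one, one_mul] at hx'
  rw [eB, ofAdd_zero, map_one, one_mul] at hy'
  apply hne (v0 * ι (Multiplicative.ofAdd u))
  rw [eq_top_iff, ← hgen, Subgroup.closure_le]
  intro g hg
  simp only [Set.mem_insert_iff, Set.mem_singleton_iff] at hg
  rcases hg with rfl | rfl
  · exact hx'
  · exact hy'

end MP15511a
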