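import Mathlib

/-!
The Fox row of the word is unimodular.
-/

namespace MP15511a

theorem unimod_aux {S E : Type*} [CommRing S] [Ring E] (j : S →+* E) (X : E) (y yi z zi b : S)
    (hy : y * yi = 1) (hz : z * zi = 1)
    (Xy : X * j y = j (z * y) * X) (Xyi : X * j yi = j (zi * yi) * X)
    (Xz : X * j z = j z * X) (Xzi : X * j zi = j zi * X) (Xb : X * j b = j b * X) :
    ∃ c d : E, c - j ((z * z - 1) * b) * ((1 - j z) * d
      + (j y - 1) * ((1 - j z * j y) * c + (X - j z) * d)) = 1 := by
  have sm : ∀ {u u' v v' : S}, X * j u = j u' * X → X * j v = j v' * X →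
      X * j (u * v) = j (u' * v') * X := by
    intro u u' v v' h h'
    rw [map_mul, map_mul, ← mul_assoc, h, mul_assoc, h', mul_assoc]
  have sa : ∀ {u u' v v' : S}, X * j u = j u' * X → X * j v = j v' * X →
      X * j (u + v) = j (u' + v') * X := by
    intro u u' v v' h h'
    rw [map_add, map_add, mul_add, add_mul, h, h']
  have ss : ∀ {u u' v v' : S}, X * j u = j u' * X → X * j v = j v' * X →
      X * j (u - v) = j (u' - v') * X := by
    intro u u' v v' h h'
    rw [map_sub, map_sub, mul_sub, sub_mul, h, h']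
  have sn : ∀ {u u' : S}, X * j u = j u' * X → X * j (-u) = j (-u') * X := by
    intro u u' h
    rw [map_neg, map_neg, mul_neg, neg_mul, h]
  have s1 : X * j 1 = j 1 * X := by rw [map_one, mul_one, one_mul]
  set al : S := (z * z - 1) * b with hal
  set f : S := 1 + al * ((y - 1) * (z * y - 1)) with hf
  set t : S := -((y - 1) * (z * y - 1)) with ht
  set q : S := -(b * ((zi * y - 1) * ((y - 1) * (z * yi)))) with hq
  set q1 : S := -(b * ((y - 1) * ((z * y - 1) * yi))) with hq1
  set c1 : S := -(al * (y - 1)) + f * q with hc1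
  set f1 : S := 1 + al * ((z * y - 1) * (z * (z * y) - 1)) with hf1
  set p0 : S := 1 - (z * y - 1) * q with hp0
  set p1 : S := (1 - f) + (y - 1) * q1 with hp1
  have Xal : X * j al = j al * X := sm (ss (sm Xz Xz) s1) Xb
  have Xf : X * j f = j f1 * X := sa s1 (sm Xal (sm (ss Xy s1) (ss (sm Xz Xy) s1)))
  have Xq : X * j q = j q1 * X := by
    have h := sn (sm Xb (sm (ss (sm Xzi Xy) s1) (sm (ss Xy s1) (sm Xz Xyi))))
    rw [hq, h]
    congr 2
    rw [hq1]
    have e1 : zi * (z * y) = y := by linear_combination y * hz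
    have e2 : z * (zi * yi) = yi := by linear_combination yi * hz
    rw [e1, e2]
  have Xc1 : X * j c1 = j (-(al * (z * y - 1)) + f1 * q1) * X :=
    sa (sn (sm Xal (ss Xy s1))) (sm Xf Xq)
  have id2 : (z * y - 1) * c1 + f * p0 = 1 := by
    rw [hc1, hp0, hf]; ring
  have id3 : (y - 1) * (-(al * (z * y - 1)) + f1 * q1) = f * p1 := by
    rw [hp1, hf1, hq1, hf, hal]
    linear_combination (-((z * z - 1) * b * ((y - 1) * (z * y - 1))) ^ 2) * hy
  have id1 : al * t = 1 - f := by rw [ht, hf]; ring
  set c' : E := j p0 + j p1 * X with hc'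
  have key : (j (z * y - 1) - j (y - 1) * X) * j c1 + j f * c' = 1 := by
    calc (j (z * y - 1) - j (y - 1) * X) * j c1 + j f * c'
        = j (z * y - 1) * j c1 + j f * j p0 - j (y - 1) * (X * j c1) + j f * j p1 * X := by
          rw [hc']; noncomm_ring
      _ = j ((z * y - 1) * c1 + f * p0)
          + (j (f * p1) - j ((y - 1) * (-(al * (z * y - 1)) + f1 * q1))) * X := by
          rw [Xc1, map_add j ((z * y - 1) * c1), map_mul j (z * y - 1) c1, map_mul j f p0,
            map_mul j f p1, map_mul j (y - 1) (-(al * (z * y - 1)) + f1 * q1)]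
          noncomm_ring
      _ = 1 := by rw [id2, id3, sub_self, zero_mul, add_zero, map_one]
  have jc : ∀ u v : S, j u * j v = j v * j u := by
    intro u v; rw [← map_mul, mul_comm, map_mul]
  have Xal' : j al * X = X * j al := Xal.symm
  have key2 : j al * (j (z * y - 1) - j (y - 1) * X) * (j c1 * j t)
      + j f * (1 + j al * c' * j t) = 1 := by
    have e1 : j al * (j f * c') = j f * (j al * c') := by
      rw [← mul_assoc, jc, mul_assoc]
    calc j al * (j (z * y - 1) - j (y - 1) * X) * (j c1 * j t)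
        + j f * (1 + j al * c' * j t)
        = j al * ((j (z * y - 1) - j (y - 1) * X) * j c1 + j f * c') * j t + j f
          - (j al * (j f * c') - j f * (j al * c')) * j t := by noncomm_ring
      _ = j al * j t + j f := by rw [key, e1]; noncomm_ring
      _ = 1 := by rw [← map_mul, id1, map_sub, map_one]; abel
  refine ⟨1 + j al * c' * j t, j c1 * j t, ?_⟩
  have e3' : ∀ a : S, j (1 + a * ((y - 1) * (z * y - 1)))
      = 1 + j a * ((j y - 1) * (j z * j y - 1)) := by
    intro a
    simp only [map_add, map_mul, map_sub, map_one]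
  have e3 : j f = 1 + j al * ((j y - 1) * (j z * j y - 1)) := e3' al
  have e4 : j (z * y - 1) - j (y - 1) * X = (j z * j y - 1) - (j y - 1) * X := by
    rw [map_sub, map_sub, map_mul, map_one]
  have e5 : j y * j z = j z * j y := jc y z
  rw [e3, e4] at key2
  generalize (1 + j al * c' * j t) = c at key2 ⊢
  generalize (j c1 * j t) = d at key2 ⊢
  calc c - j al * ((1 - j z) * d + (j y - 1) * ((1 - j z * j y) * c + (X - j z) * d))
      = j al * ((j z * j y - 1) - (j y - 1) * X) * d
        + (1 + j al * ((j y - 1) * (j z * j y - 1))) * c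
        + j al * (j y * j z - j z * j y) * d := by noncomm_ring
    _ = 1 := by rw [key2, e5]; noncomm_ring

theorem unimod {E : Type*} [Ring E] (X Y Yi Z Zi b : E)
    (hY : Y * Yi = 1) (hY' : Yi * Y = 1) (hZ : Z * Zi = 1) (hZ' : Zi * Z = 1)
    (XY : X * Y = Z * Y * X) (XZ : X * Z = Z * X) (YZ : Y * Z = Z * Y)
    (bX : X * b = b * X) (bY : Y * b = b * Y) (bZ : Z * b = b * Z) :
    ∃ c d : E, c - (Z * Z - 1) * b * ((1 - Z) * d
      + (Y - 1) * ((1 - Z * Y) * c + (X - Z) * d)) = 1 := by
  have invc : ∀ U Ui W : E, U * Ui = 1 → Ui * U = 1 → U * W = W * U → Ui * W = W * Ui := by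
    intro U Ui W h h' hc
    calc Ui * W = Ui * W * (U * Ui) := by rw [h, mul_one]
      _ = Ui * (W * U) * Ui := by noncomm_ring
      _ = (Ui * U) * W * Ui := by rw [← hc]; noncomm_ring
      _ = W * Ui := by rw [h', one_mul]
  have YiZ := invc Y Yi Z hY hY' YZ
  have Yib := invc Y Yi b hY hY' bY
  have ZiY := invc Z Zi Y hZ hZ' YZ.symm
  have Zib := invc Z Zi b hZ hZ' bZ
  have ZiYi := invc Z Zi Yi hZ hZ' YiZ.symm
  have ZiX := invc Z Zi X hZ hZ' XZ.symm
  have hcomm : ∀ u ∈ ({Y, Yi, Z, Zi, b} : Set E), ∀ v ∈ ({Y, Yi, Z, Zi, b} : Set E),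
      u * v = v * u := by
    intro u hu v hv
    simp only [Set.mem_insert_iff, Set.mem_singleton_iff] at hu hv
    rcases hu with rfl | rfl | rfl | rfl | rfl <;> rcases hv with rfl | rfl | rfl | rfl | rfl <;>
      first
        | rfl
        | assumption
        | (symm; assumption)
        | (rw [hY, hY'])
        | (rw [hZ, hZ'])
  have mem : ∀ u ∈ ({Y, Yi, Z, Zi, b} : Set E), u ∈ Subring.closure ({Y, Yi, Z, Zi, b} : Set E) :=
    fun u hu => Subring.subset_closure hu
  have XYi : X * Yi = Zi * Yi * X := by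
    calc X * Yi = (Zi * Yi) * ((Y * Z) * X) * Yi := by
          have : (Zi * Yi) * (Y * Z) = 1 := by
            calc (Zi * Yi) * (Y * Z) = Zi * (Yi * Y) * Z := by noncomm_ring
              _ = 1 := by rw [hY', mul_one, hZ']
          calc X * Yi = 1 * X * Yi := by rw [one_mul]
            _ = _ := by rw [← this]; noncomm_ring
      _ = (Zi * Yi) * (X * Y) * Yi := by rw [XY, YZ]
      _ = (Zi * Yi) * X * (Y * Yi) := by noncomm_ring
      _ = Zi * Yi * X := by rw [hY, mul_one]
  exact @unimod_aux (Subring.closure ({Y, Yi, Z, Zi, b} : Set E)) E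
    (Subring.closureCommRingOfComm hcomm) _ (Subring.subtype _) X
    ⟨Y, mem _ (by simp)⟩ ⟨Yi, mem _ (by simp)⟩ ⟨Z, mem _ (by simp)⟩ ⟨Zi, mem _ (by simp)⟩
    ⟨b, mem _ (by simp)⟩ (Subtype.ext hY) (Subtype.ext hZ) XY XYi XZ ZiX.symm bX

end MP15511a
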