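import Pool.Agent.Lib.MP_15511a_al.SD
import Pool.Agent.Lib.MP_15511a_al.Unimod

/-!
The derivative of the word is surjective on every module.
-/

open scoped commutatorElement

namespace MP15511a

theorem geom {Q E : Type*} [Group Q] [Ring E] (T : Q →* E) (z : Q) (n : ℤ) :
    ∃ γ : E, (T z * T z - 1) * γ = T (z ^ (2 * n)) - 1 ∧
      ∀ w : E, w * T z = T z * w → w * γ = γ * w := by
  have hinv : T z * T z⁻¹ = 1 := by rw [← map_mul, mul_inv_cancel, map_one]
  have hinv' : T z⁻¹ * T z = 1 := by rw [← map_mul, inv_mul_cancel, map_one]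
  induction n using Int.induction_on with
  | zero => exact ⟨0, by simp, fun w _ => by simp⟩
  | succ i ih =>
    obtain ⟨γ, h1, h2⟩ := ih
    refine ⟨γ * (T z * T z) + 1, ?_, fun w hw => ?_⟩
    · have e : z ^ (2 * ((i : ℤ) + 1)) = z ^ (2 * (i : ℤ)) * (z * z) := by
        rw [mul_add, zpow_add, mul_one, zpow_two]
      rw [e, map_mul, map_mul, mul_add, ← mul_assoc, h1]
      noncomm_ring
    · rw [mul_add, add_mul, ← mul_assoc, h2 w hw, mul_assoc γ w, ← mul_assoc w, hw,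
        mul_assoc (T z) w, hw]
      noncomm_ring
  | pred i ih =>
    obtain ⟨γ, h1, h2⟩ := ih
    refine ⟨(γ - 1) * (T z⁻¹ * T z⁻¹), ?_, fun w hw => ?_⟩
    · have e : z ^ (2 * (-(i : ℤ) - 1)) = z ^ (2 * (-(i : ℤ))) * (z⁻¹ * z⁻¹) := by
        rw [mul_sub, zpow_sub, mul_one, zpow_two, mul_inv_rev]
      have h3 : T z * T z * (T z⁻¹ * T z⁻¹) = 1 := by
        calc T z * T z * (T z⁻¹ * T z⁻¹) = T z * (T z * T z⁻¹) * T z⁻¹ := by noncomm_ring
          _ = 1 := by rw [hinv, mul_one, hinv]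
      rw [e, map_mul, map_mul, ← mul_assoc, mul_sub, h1, mul_one]
      calc (T (z ^ (2 * -(i : ℤ))) - 1 - (T z * T z - 1)) * (T z⁻¹ * T z⁻¹)
          = T (z ^ (2 * -(i : ℤ))) * (T z⁻¹ * T z⁻¹) - T z * T z * (T z⁻¹ * T z⁻¹) := by
            noncomm_ring
        _ = _ := by rw [h3]
    · have hwi : w * T z⁻¹ = T z⁻¹ * w := by
        calc w * T z⁻¹ = (T z⁻¹ * T z) * w * T z⁻¹ := by rw [hinv', one_mul]
          _ = T z⁻¹ * (T z * w) * T z⁻¹ := by noncomm_ring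
          _ = T z⁻¹ * w * (T z * T z⁻¹) := by rw [← hw]; noncomm_ring
          _ = T z⁻¹ * w := by rw [hinv, mul_one]
      calc w * ((γ - 1) * (T z⁻¹ * T z⁻¹)) = (w * γ) * (T z⁻¹ * T z⁻¹) - (w * T z⁻¹) * T z⁻¹ := by
            noncomm_ring
        _ = (γ * w) * (T z⁻¹ * T z⁻¹) - (T z⁻¹ * w) * T z⁻¹ := by rw [h2 w hw, hwi]
        _ = γ * (w * T z⁻¹) * T z⁻¹ - T z⁻¹ * (w * T z⁻¹) := by noncomm_ring
        _ = γ * (T z⁻¹ * w) * T z⁻¹ - T z⁻¹ * (T z⁻¹ * w) := by rw [hwi]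
        _ = γ * T z⁻¹ * (w * T z⁻¹) - T z⁻¹ * (T z⁻¹ * w) := by noncomm_ring
        _ = γ * T z⁻¹ * (T z⁻¹ * w) - T z⁻¹ * (T z⁻¹ * w) := by rw [hwi]
        _ = _ := by noncomm_ring

variable {V Q : Type*} [AddCommGroup V] [Group Q] [DistribMulAction Q V]

theorem word_surj (x y : Q) (m n : ℤ) (hy : ∀ u : V, ⁅y, ⁅x, y⁆⁆ • u = u)
    (hx : ∀ u : V, ⁅x, ⁅x, y⁆⁆ • u = u) (t : V) :
    ∃ a b : V, (word m n (⟨a, x⟩ : SD V Q) ⟨b, y⟩).v = t := by
  set z := ⁅x, y⁆ with hz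
  let T : Q →* AddMonoid.End V := DistribMulAction.toAddMonoidEnd Q V
  have Tap : ∀ (g : Q) (u : V), T g u = g • u := fun g u => rfl
  have Tc : ∀ g h : Q, (∀ u : V, g • u = h • u) → T g = T h := by
    intro g h hgh
    ext u
    exact hgh u
  have hinv : ∀ g : Q, T g * T g⁻¹ = 1 := fun g => by rw [← map_mul, mul_inv_cancel, map_one]
  have hinv' : ∀ g : Q, T g⁻¹ * T g = 1 := fun g => by rw [← map_mul, inv_mul_cancel, map_one]
  have hXY : T x * T y = T z * T y * T x := by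
    rw [← map_mul, ← map_mul, ← map_mul]
    congr 1
    rw [hz, commutatorElement_def]; group
  have hXZ : T x * T z = T z * T x := by
    rw [← map_mul, ← map_mul]
    apply Tc
    intro u
    have e : x * z = ⁅x, z⁆ * (z * x) := by rw [commutatorElement_def]; group
    rw [e, mul_smul, hx]
  have hYZ : T y * T z = T z * T y := by
    rw [← map_mul, ← map_mul]
    apply Tc
    intro u
    have e : y * z = ⁅y, z⁆ * (z * y) := by rw [commutatorElement_def]; group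
    rw [e, mul_smul, hy]
  obtain ⟨γ, h1, h2⟩ := geom T z n
  have hc : ∀ w : AddMonoid.End V, w * T z = T z * w → w * (m • γ) = (m • γ) * w := by
    intro w hw
    rw [mul_smul_comm, smul_mul_assoc, h2 w hw]
  obtain ⟨c, d, hcd⟩ := unimod (T x) (T y) (T y⁻¹) (T z) (T z⁻¹) (m • γ) (hinv y) (hinv' y)
    (hinv z) (hinv' z) hXY hXZ hYZ (hc _ hXZ) (hc _ hYZ) (hc _ rfl)
  refine ⟨c t, d t, ?_⟩
  rw [SD.word_v x y (c t) (d t) m n hy]
  have h3 : (T z * T z - 1) * (m • γ) = m • (T (z ^ (2 * n)) - 1) := by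
    rw [mul_smul_comm, h1]
  rw [h3] at hcd
  have h4 := DFunLike.congr_fun hcd t
  have h5 : ∀ (e : AddMonoid.End V) (u : V), (m • e) u = m • (e u) := fun e u => rfl
  have h6 : ∀ (e f : AddMonoid.End V) (u : V), (e - f) u = e u - f u := fun e f u => rfl
  have h7 : ∀ (e f : AddMonoid.End V) (u : V), (e + f) u = e u + f u := fun e f u => rfl
  have h8 : ∀ (u : V), (1 : AddMonoid.End V) u = u := fun u => rfl
  have h9 : ∀ (e f : AddMonoid.End V) (u : V), (e * f) u = e (f u) := fun e f u => rfl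
  simp only [h5, h6, h7, h8, h9, Tap] at h4
  rw [← hz]
  generalize c t = ct at h4 ⊢
  generalize d t = dt at h4 ⊢
  have e1 : (z * y) • ct = z • y • ct := mul_smul _ _ _
  rw [e1]
  simp only [smul_sub, smul_add, sub_smul] at h4 ⊢
  rw [← h4]
  abel

end MP15511a
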